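import Mathlib
import Pool.Agent.H30.Mid.Gl

set_option autoImplicit false
set_option linter.unusedSectionVars false
open Finset

/-! # Amplitudes of an arbitrary family of tiles with an arbitrary target corner

`AG X lb ct a b ω` : the tiles with the labels `lb i` have the weights `a i`, `b i`, all the other random
labels of the environment `X` are in the state `ω`; value = weighted increment at the corner `ct`.
`AG_cases` : either it is a constant times `∏ (a i + b i)` (so it vanishes if there is a coupon), or a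
phase times the state sum of the network of the tiles, with the mark at the first end which `ct` reaches. -/

namespace Pool.Agent.H30.W

open Pool.Agent.H75.Perc Pool.Agent.H75.TwoArm Pool.Agent.Q1 Pool.Agent.H81.G1
open Pool.Agent.H30.Mid (crn pE tiles_gen Ec_states)

/-! ### Increments at a corner whose path is deterministic for a while -/

section tgt
variable {Y : Env} {c : ℤ × ℤ}

lemma z_add' (ω : Finset (ℤ × ℤ)) (i j : ℕ) : Y.z ω (i + j) = (Y.f ω)^[j] (Y.z ω i) := by
  unfold Env.z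
  rw [Nat.add_comm, Function.iterate_add_apply]

lemma K_path {ω : Finset (ℤ × ℤ)} (hω : ω ⊆ Y.E) (hc : c ∈ Y.S) {n : ℕ}
    (h1 : ∀ i < n, lab (Y.out^[i] c) ∉ Y.E) {i : ℕ} (hi : Y.z ω i = c) :
    Y.K ω (i + n) = Y.K ω i + ∑ j ∈ range n, Y.dout (Y.out^[j] c) := by
  obtain ⟨i1, i2⟩ := wire_iter hω hc h1
  have key : ∀ m ≤ n, Y.K ω (i + m) = Y.K ω i + ∑ j ∈ range m, Y.dout (Y.out^[j] c) := by
    intro m
    induction m with
    | zero => intro _; simp
    | succ m ih =>
      intro hm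
      rw [← add_assoc, Env.K_succ, ih (by omega), sum_range_succ, z_add', hi, i1 m (by omega),
        i2 m (by omega), add_assoc]
  exact key n le_rfl

/-- the increment is one phase -/
lemma incO_at {ω : Finset (ℤ × ℤ)} (hω : ω ⊆ Y.E) {i : ℕ} (hi : i < Y.len ω) (hz : Y.z ω i = c) :
    Y.incO ω c = Pool.Agent.Q1.ph (Y.K ω i) := by
  unfold Env.incO
  rw [sum_eq_single i]
  · rw [if_pos hz]
  · intro j hj hne
    rw [if_neg]
    intro h
    exact hne (Env.z_inj hω (mem_range.1 hj) hi (h.trans hz.symm))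
  · intro h
    exact absurd (mem_range.2 hi) h

lemma incO_none {ω : Finset (ℤ × ℤ)} (h : ∀ i < Y.len ω, Y.z ω i ≠ c) : Y.incO ω c = 0 := by
  unfold Env.incO
  exact sum_eq_zero fun i hi => if_neg (h i (mem_range.1 hi))

/-- the deterministic path of `c` comes back to the root -/
lemma incO_back (hc : c ∈ Y.S) {j : ℕ} (hj : 0 < j) (h0 : Y.out^[j] c = Y.c0)
    (h1 : ∀ i < j, lab (Y.out^[i] c) ∉ Y.E) (h2 : ∀ i, 0 < i → i < j → Y.out^[i] c ≠ Y.c0)
    {ω : Finset (ℤ × ℤ)} (hω : ω ⊆ Y.E) :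
    Y.incO ω c = Pool.Agent.Q1.ph (Y.k0 + Y.T - ∑ i ∈ range j, Y.dout (Y.out^[i] c)) := by
  obtain ⟨i1, i2⟩ := wire_iter hω hc h1
  have hL := Env.orb hω
  have hf := Env.f_injective hω
  have hjL : j ≤ Y.len ω := by
    by_contra hlt
    have h3 : (Y.f ω)^[j] c = (Y.f ω)^[Y.len ω] Y.c0 := by
      rw [i1 j le_rfl, h0]; exact (Env.z_len hω).symm
    have h4 : j = Y.len ω + (j - Y.len ω) := by omega
    rw [h4, Function.iterate_add_apply] at h3
    have h5 := hf.iterate _ h3
    rw [i1 _ (by omega)] at h5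
    exact h2 _ (by omega) (by have := hL.pos; omega) h5
  have hz : Y.z ω (Y.len ω - j) = c := by
    apply hf.iterate j
    rw [← z_add', Nat.sub_add_cancel hjL, i1 j le_rfl, h0]
    exact Env.z_len hω
  have hlt : Y.len ω - j < Y.len ω := by have := hL.pos; omega
  rw [incO_at hω hlt hz]
  have h6 := K_path hω hc h1 hz
  rw [Nat.sub_add_cancel hjL, Env.K_len hω] at h6
  congr 1
  linarith

/-- the increments at the two ends of a deterministic path -/
lemma incO_fwd (hc : c ∈ Y.S) {n : ℕ} (h1 : ∀ i < n, lab (Y.out^[i] c) ∉ Y.E)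
    (h2 : ∀ i, 0 < i → i ≤ n → Y.out^[i] c ≠ Y.c0) {ω : Finset (ℤ × ℤ)} (hω : ω ⊆ Y.E) :
    Y.incO ω c = Pool.Agent.Q1.ph (-∑ i ∈ range n, Y.dout (Y.out^[i] c)) * Y.incO ω (Y.out^[n] c) := by
  obtain ⟨i1, i2⟩ := wire_iter hω hc h1
  have hf := Env.f_injective hω
  by_cases h : ∃ i < Y.len ω, Y.z ω i = c
  · obtain ⟨i, hi, hz⟩ := h
    have hlt : i + n < Y.len ω := by
      by_contra hge
      obtain ⟨j, hj⟩ : ∃ j, Y.len ω = i + j := ⟨Y.len ω - i, by omega⟩
      have h3 : Y.z ω (i + j) = Y.c0 := by rw [← hj]; exact Env.z_len hω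
      rw [z_add', hz, i1 j (by omega)] at h3
      exact h2 j (by omega) (by omega) h3
    have hz2 : Y.z ω (i + n) = Y.out^[n] c := by rw [z_add', hz, i1 n le_rfl]
    rw [incO_at hω hi hz, incO_at hω hlt hz2, K_path hω hc h1 hz, ← Pool.Agent.Q1.ph_add]
    congr 1
    ring
  · push Not at h
    rw [incO_none h, incO_none, mul_zero]
    intro i hi hz
    rcases Nat.lt_or_ge i n with hin | hin
    · obtain ⟨j, rfl⟩ : ∃ j, n = i + j := ⟨n - i, by omega⟩
      have h3 : (Y.f ω)^[i] Y.c0 = (Y.f ω)^[i] ((Y.f ω)^[j] c) := by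
        rw [← Function.iterate_add_apply, i1 _ le_rfl]; exact hz
      have h4 := hf.iterate i h3
      rw [i1 j (by omega)] at h4
      exact h2 j (by omega) (by omega) h4.symm
    · obtain ⟨j, rfl⟩ : ∃ j, i = j + n := ⟨i - n, by omega⟩
      rw [z_add', ← i1 n le_rfl] at hz
      exact h j (by omega) (hf.iterate n hz)

/-- **The two cases for the target**: the increment does not depend on the states of the random labels, or
the path of the target meets a random label before it meets the root. -/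
theorem tgt_cases (Y : Env) (c : ℤ × ℤ) :
    (∃ u : ℂ, ‖u‖ ≤ 1 ∧ ∀ ω, ω ⊆ Y.E → Y.incO ω c = u) ∨
    ∃ n, (∀ i < n, lab (Y.out^[i] c) ∉ Y.E) ∧ lab (Y.out^[n] c) ∈ Y.E ∧
      (∀ i, 0 < i → i ≤ n → Y.out^[i] c ≠ Y.c0) ∧ ∀ ω, ω ⊆ Y.E →
        Y.incO ω c = Pool.Agent.Q1.ph (-∑ i ∈ range n, Y.dout (Y.out^[i] c)) * Y.incO ω (Y.out^[n] c) := by
  classical
  by_cases hc : c ∈ Y.S
  swap
  · left
    refine ⟨0, by simp, fun ω hω => incO_none fun i _ hz => hc ?_⟩
    rw [← hz]; exact Env.z_mem hω i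
  by_cases hc0 : c = Y.c0
  · left
    refine ⟨Pool.Agent.Q1.ph Y.k0, (Pool.Agent.Q1.ph_norm _).le, fun ω hω => ?_⟩
    rw [incO_at hω (Env.len_pos hω) (by rw [Env.z_zero, hc0]), Env.K_zero]
  by_cases hb : ∃ j, 0 < j ∧ Y.out^[j] c = Y.c0 ∧ ∀ i < j, lab (Y.out^[i] c) ∉ Y.E
  · left
    set j := Nat.find hb with hj
    obtain ⟨j1, j2, j3⟩ := Nat.find_spec hb
    refine ⟨_, (Pool.Agent.Q1.ph_norm _).le, fun ω hω => incO_back hc j1 j2 j3 ?_ hω⟩
    intro i hi0 hij h
    exact Nat.find_min hb hij ⟨hi0, h, fun k hk => j3 k (hk.trans hij)⟩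
  by_cases hh : ∃ n, lab (Y.out^[n] c) ∈ Y.E
  · right
    have h1 : ∀ i < Nat.find hh, lab (Y.out^[i] c) ∉ Y.E := fun i hi => Nat.find_min hh hi
    have h2 : ∀ i, 0 < i → i ≤ Nat.find hh → Y.out^[i] c ≠ Y.c0 := by
      intro i hi0 hin h
      exact hb ⟨i, hi0, h, fun k hk => h1 k (by omega)⟩
    exact ⟨Nat.find hh, h1, Nat.find_spec hh, h2, fun ω hω => incO_fwd hc h1 h2 hω⟩
  · left
    push Not at hh
    refine ⟨0, by simp, fun ω hω => incO_none fun i hi hz => ?_⟩
    obtain ⟨j, hj⟩ : ∃ j, Y.len ω = i + j := ⟨Y.len ω - i, by omega⟩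
    have h3 : Y.z ω (i + j) = Y.c0 := by rw [← hj]; exact Env.z_len hω
    rw [z_add', hz, (wire_iter hω hc (n := j) fun k _ => hh k).1 j le_rfl] at h3
    exact hb ⟨j, by omega, h3, fun k _ => hh k⟩

end tgt

/-! ### The amplitude -/

section
variable {ι : Type*} [Fintype ι] [DecidableEq ι]

/-- corners of the tiles -/
def gcr (lb : ι → ℤ × ℤ) (x : ι × Dir) : ℤ × ℤ := crn (lb x.1) x.2

/-- parities of the tiles -/
def gp (lb : ι → ℤ × ℤ) (i : ι) : Bool := pE (lb i)

/-- the family of labels -/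
structure Fam (X : Env) (lb : ι → ℤ × ℤ) : Prop where
  inj : Function.Injective lb
  mem : ∀ i, lb i ∈ X.E

/-- **The amplitude of the tiles `lb` with the target `ct`** -/
noncomputable def AG (X : Env) (lb : ι → ℤ × ℤ) (ct : ℤ × ℤ) (a b : ι → ℂ) (ω : Finset (ℤ × ℤ)) : ℂ :=
  ∑ s : ι → Bool, (∏ i, if s i then b i else a i) *
    (X.freeze (univ.image lb) ω).incO (osn lb (gp lb) s) ct

variable {X : Env} {lb : ι → ℤ × ℤ}

lemma Fam.sub (h : Fam X lb) : univ.image lb ⊆ X.E := by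
  intro e he
  obtain ⟨i, -, rfl⟩ := mem_image.1 he
  exact h.mem i

lemma Fam.frE (h : Fam X lb) (ω : Finset (ℤ × ℤ)) : (X.freeze (univ.image lb) ω).E = univ.image lb := by
  rw [Env.freeze_E]; exact inter_eq_right.2 h.sub

/-- the tiles -/
theorem Fam.tiles (h : Fam X lb) (ω : Finset (ℤ × ℤ)) :
    Tiles (X.freeze (univ.image lb) ω) lb (gp lb) (gcr lb) :=
  tiles_gen (X.freeze (univ.image lb) ω) lb h.inj (fun i => by
      rw [Env.freeze_E, mem_inter]
      exact ⟨h.mem i, mem_image_of_mem _ (mem_univ _)⟩) (fun e he => by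
      rw [h.frE, mem_image] at he
      obtain ⟨i, -, hi⟩ := he
      exact ⟨i, hi⟩)

/-- the sum of the weights of the states -/
lemma sum_wts (a b : ι → ℂ) : ∑ s : ι → Bool, (∏ i, if s i then b i else a i) = ∏ i, (a i + b i) := by
  have h2 := Finset.prod_univ_sum (fun _ : ι => (univ : Finset Bool))
    (fun i (u : Bool) => if u then b i else a i)
  rw [Fintype.piFinset_univ] at h2
  rw [← h2]
  refine Finset.prod_congr rfl fun i _ => ?_
  rw [Fintype.sum_bool]
  simp [add_comm]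

/-- the increment is constant -/
lemma AG_of_const (h : Fam X lb) {ct : ℤ × ℤ} {ω : Finset (ℤ × ℤ)} {u : ℂ}
    (hu : ∀ ρ, ρ ⊆ univ.image lb → (X.freeze (univ.image lb) ω).incO ρ ct = u) (a b : ι → ℂ) :
    AG X lb ct a b ω = u * ∏ i, (a i + b i) := by
  unfold AG
  rw [← sum_wts, mul_sum]
  refine sum_congr rfl fun s _ => ?_
  have h1 := osn_sub (h.tiles ω) s
  rw [h.frE] at h1
  rw [hu _ h1]
  ring

/-- **The two cases of the amplitude.** -/
theorem AG_cases (h : Fam X lb) (ct : ℤ × ℤ) (ω : Finset (ℤ × ℤ)) :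
    (∃ u : ℂ, ‖u‖ ≤ 1 ∧ ∀ a b, AG X lb ct a b ω = u * ∏ i, (a i + b i)) ∨
    ∃ (hm : Meets (X.freeze (univ.image lb) ω)) (y : ι × Dir) (u : ℂ), inc (gp lb) y = true ∧
      y ≠ rx0 (h.tiles ω) hm ∧ ‖u‖ = 1 ∧
      (∃ n, (∀ i < n, lab ((X.freeze (univ.image lb) ω).out^[i] ct) ∉ univ.image lb) ∧
        (X.freeze (univ.image lb) ω).out^[n] ct = gcr lb y ∧
        ∀ i, 0 < i → i ≤ n → (X.freeze (univ.image lb) ω).out^[i] ct ≠ X.c0) ∧
      ∀ a b, AG X lb ct a b ω = u * (net (h.tiles ω) hm y).Z a b := by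
  classical
  set Y := X.freeze (univ.image lb) ω with hY
  have hYE : Y.E = univ.image lb := h.frE ω
  have T : Tiles Y lb (gp lb) (gcr lb) := h.tiles ω
  rcases tgt_cases Y ct with ⟨u, hu, h1⟩ | ⟨n, n1, n2, n3, n4⟩
  · left
    exact ⟨u, hu, AG_of_const h fun ρ hρ => h1 ρ (by rw [hYE]; exact hρ)⟩
  obtain ⟨y, hy, hcy⟩ := cr_surj T n2
  by_cases hm : Meets Y
  swap
  · left
    refine ⟨0, by simp, AG_of_const h fun ρ hρ => incO_none fun i _ hz => ?_⟩
    have hρ' : ρ ⊆ Y.E := by rw [hYE]; exact hρ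
    -- the path of the root never meets a random label, the path of the target does
    have hno : ∀ i, lab (Y.out^[i] Y.c0) ∉ Y.E := fun i hi => hm ⟨i, hi⟩
    have e1 : ∀ j, Y.z ρ j = Y.out^[j] Y.c0 := fun j =>
      (wire_iter hρ' Y.c0_mem (n := j) (fun k _ => hno k)).1 j le_rfl
    have e2 : Y.z ρ (i + n) = Y.out^[n] ct := by
      have hctS : ct ∈ Y.S := by rw [← hz]; exact Env.z_mem hρ' i
      rw [z_add', hz, (wire_iter hρ' hctS n1).1 n le_rfl]
    apply hno (i + n)
    rw [← e1, e2]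
    exact n2
  by_cases hne : y = rx0 T hm
  · left
    refine ⟨Pool.Agent.Q1.ph (-∑ i ∈ range n, Y.dout (Y.out^[i] ct)) *
      Pool.Agent.Q1.ph (Y.k0 + dsh Y (rn0 Y)), ?_, AG_of_const h fun ρ hρ => ?_⟩
    · rw [norm_mul, Pool.Agent.Q1.ph_norm, Pool.Agent.Q1.ph_norm, one_mul]
    · have hρ' : ρ ⊆ Y.E := by rw [hYE]; exact hρ
      rw [n4 ρ hρ', ← hcy, hne, incO_root T hm hρ']
  right
  refine ⟨hm, y, Pool.Agent.Q1.ph (-∑ i ∈ range n, Y.dout (Y.out^[i] ct)) * zt ^ (6 * ty (gcr lb y) - 2 * (Y.k0 +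
      dsh Y (rn0 Y))), hy, hne, ?_, ⟨n, ?_, hcy.symm, n3⟩, ?_⟩
  · rw [norm_mul, Pool.Agent.Q1.ph_norm, norm_zpow, zt_norm, one_zpow, one_mul]
  · intro i hi
    rw [← hYE]; exact n1 i hi
  · intro a b
    unfold AG Net.Z
    rw [mul_sum]
    refine sum_congr rfl fun s _ => ?_
    have hW := net_wired T hm hy hne
    have h1 := incO_amp hW (osn_sub T s)
    rw [stt_osn T] at h1
    have h2 : (net T hm y).y0 = y := rfl
    rw [h2] at h1
    have h3 := n4 _ (osn_sub T s)
    rw [← hcy, h1] at h3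
    have h4 : (X.freeze (univ.image lb) ω).incO (osn lb (gp lb) s) ct = _ := h3
    rw [h4]
    ring

/-- with a coupon only the network case remains -/
theorem AG_net (h : Fam X lb) (ct : ℤ × ℤ) (ω : Finset (ℤ × ℤ)) {a b : ι → ℂ} (hc : ∃ i, a i + b i = 0) :
    AG X lb ct a b ω = 0 ∨
    ∃ (hm : Meets (X.freeze (univ.image lb) ω)) (y : ι × Dir), inc (gp lb) y = true ∧
      y ≠ rx0 (h.tiles ω) hm ∧
      (∃ n, (∀ i < n, lab ((X.freeze (univ.image lb) ω).out^[i] ct) ∉ univ.image lb) ∧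
        (X.freeze (univ.image lb) ω).out^[n] ct = gcr lb y ∧
        ∀ i, 0 < i → i ≤ n → (X.freeze (univ.image lb) ω).out^[i] ct ≠ X.c0) ∧
      ‖AG X lb ct a b ω‖ = ‖(net (h.tiles ω) hm y).Z a b‖ := by
  rcases AG_cases h ct ω with ⟨u, -, h1⟩ | ⟨hm, y, u, h1, h2, h3, h4, h5⟩
  · left
    obtain ⟨i, hi⟩ := hc
    rw [h1, prod_eq_zero (mem_univ i) hi, mul_zero]
  · right
    exact ⟨hm, y, h1, h2, h4, by rw [h5, norm_mul, h3, one_mul]⟩

/-- the amplitude in terms of the environment itself -/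
lemma AG_eq (h : Fam X lb) (ct : ℤ × ℤ) (a b : ι → ℂ) (ω : Finset (ℤ × ℤ)) :
    AG X lb ct a b ω = ∑ s : ι → Bool, (∏ i, if s i then b i else a i) *
      X.incO (osn lb (gp lb) s ∪ (ω ∩ (X.E \ univ.image lb))) ct := by
  unfold AG
  refine sum_congr rfl fun s _ => ?_
  have h1 := osn_sub (h.tiles ω) s
  rw [Env.freeze_E] at h1
  rw [Env.freeze_incO h1]

/-- the amplitude depends only on the other labels -/
lemma AG_congr (h : Fam X lb) (ct : ℤ × ℤ) (a b : ι → ℂ) {ω ω' : Finset (ℤ × ℤ)}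
    (hω : ω ∩ (X.E \ univ.image lb) = ω' ∩ (X.E \ univ.image lb)) :
    AG X lb ct a b ω = AG X lb ct a b ω' := by
  rw [AG_eq h, AG_eq h, hω]

/-- **The weighted increments of `X` through the tiles.** -/
theorem incW_AG (h : Fam X lb) (q : ℤ × ℤ → ℂ) (ct : ℤ × ℤ) :
    X.incW q ct = Ec q (X.E \ univ.image lb) (AG X lb ct (wA lb (gp lb) q) (wB lb (gp lb) q)) := by
  unfold Env.incW
  rw [Ec_split q h.sub, Ec_swap]
  refine Ec_congr fun ω1 h1 => ?_
  unfold AG
  have h2 : (X.freeze (univ.image lb) ω1).E = univ.image lb := h.frE ω1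
  have h3 := Ec_states (h.tiles ω1) q
    (fun ρ => (X.freeze (univ.image lb) ω1).incO ρ ct)
  rw [h2] at h3
  rw [← h3]
  refine Ec_congr fun ρ hρ => ?_
  rw [Env.freeze_incO (by rwa [inter_eq_right.2 h.sub])]
  congr 2
  exact (inter_eq_left.2 h1).symm

/-- **Coupons** at the subsets of `T`. -/
theorem AG_coupons (X : Env) (lb : ι → ℤ × ℤ) (ct : ℤ × ℤ) (T : Finset ι) (a b : ι → ℂ) (κ : ℂ)
    (ω : Finset (ℤ × ℤ)) :
    AG X lb ct (fun i => if i ∈ T then a i + κ else a i) (fun i => if i ∈ T then b i - κ else b i) ω =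
      ∑ S ∈ T.powerset, κ ^ S.card * AG X lb ct (fun i => if i ∈ S then 1 else a i)
        (fun i => if i ∈ S then -1 else b i) ω := by
  have h1 : ∀ s : ι → Bool, (∏ i, if s i then (if i ∈ T then b i - κ else b i) else
      (if i ∈ T then a i + κ else a i)) =
      ∑ S ∈ T.powerset, κ ^ S.card *
        ∏ i, if s i then (if i ∈ S then (-1 : ℂ) else b i) else if i ∈ S then 1 else a i := by
    intro s
    have e1 : (∏ i, if s i then (if i ∈ T then b i - κ else b i) else
        (if i ∈ T then a i + κ else a i)) =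
        (∏ i ∈ T, ((if s i then -κ else κ) + (if s i then b i else a i))) *
          ∏ i ∈ univ \ T, (if s i then b i else a i) := by
      rw [← Finset.prod_sdiff (Finset.subset_univ T), mul_comm]
      congr 1
      · refine Finset.prod_congr rfl fun i hi => ?_
        simp only [hi, if_true]
        split_ifs <;> ring
      · refine Finset.prod_congr rfl fun i hi => ?_
        have hi : i ∉ T := (mem_sdiff.1 hi).2
        simp only [hi, if_false]
    rw [e1, Finset.prod_add, sum_mul]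
    refine Finset.sum_congr rfl fun S hS => ?_
    have hST := mem_powerset.1 hS
    have e2 : (∏ i, if s i then (if i ∈ S then (-1 : ℂ) else b i) else if i ∈ S then 1 else a i) =
        (∏ i ∈ S, if s i then (-1 : ℂ) else 1) * ∏ i ∈ univ \ S, (if s i then b i else a i) := by
      rw [← Finset.prod_sdiff (Finset.subset_univ S), mul_comm]
      congr 1
      · refine Finset.prod_congr rfl fun i hi => ?_
        simp only [hi, if_true]
      · refine Finset.prod_congr rfl fun i hi => ?_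
        have hi : i ∉ S := (mem_sdiff.1 hi).2
        simp only [hi, if_false]
    have e3 : (∏ i ∈ univ \ S, (if s i then b i else a i)) =
        (∏ i ∈ T \ S, (if s i then b i else a i)) * ∏ i ∈ univ \ T, (if s i then b i else a i) := by
      rw [← prod_union]
      · congr 1
        ext i
        rw [mem_union, mem_sdiff, mem_sdiff, mem_sdiff]
        constructor
        · rintro ⟨-, h⟩
          by_cases hT : i ∈ T
          · exact Or.inl ⟨hT, h⟩
          · exact Or.inr ⟨mem_univ _, hT⟩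
        · rintro (⟨-, h⟩ | ⟨-, h⟩)
          · exact ⟨mem_univ _, h⟩
          · exact ⟨mem_univ _, fun h' => h (hST h')⟩
      · rw [disjoint_left]
        intro i hi hi'
        exact (mem_sdiff.1 hi').2 (mem_sdiff.1 hi).1
    have e4 : (∏ i ∈ S, if s i then -κ else κ) = κ ^ S.card * ∏ i ∈ S, if s i then (-1 : ℂ) else 1 := by
      rw [← prod_const, ← prod_mul_distrib]
      refine Finset.prod_congr rfl fun i _ => ?_
      split_ifs <;> ring
    rw [e2, e3, e4]
    ring
  unfold AG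
  simp only [h1, Finset.sum_mul, Finset.mul_sum]
  rw [Finset.sum_comm]
  refine Finset.sum_congr rfl fun S _ => ?_
  exact Finset.sum_congr rfl fun s _ => by ring

end

end Pool.Agent.H30.W
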