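import Mathlib
import Pool.Agent.H30.W.AG

set_option autoImplicit false
set_option linter.unusedSectionVars false
open Finset

/-! # A row and extra tiles

Index set `Fin N ⊕ κ`: the tiles of the row (labels `rl x0 y0 c`) and extra tiles with the labels `l2 j`
(the string, the first tile of the target) and arbitrary weights. `AmpE`: coupons at the positions `s`
(counted from the column `k`) of the row, on glued configurations. -/

namespace Pool.Agent.H30.W

open Pool.Agent.H75.Perc Pool.Agent.H75.TwoArm Pool.Agent.Q1 Pool.Agent.H81.G1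
open Pool.Agent.H30.Mid (crn pE rl rl_inj rp rcr RS mem_RS cA cB cs ug AR Ec_states Ec_unglue)
open Pool.Agent.Q1.M6b.Gl (gE tr mem_tr)
open Pool.Agent.H69.M6b (lbt)

/-! ### Families of tiles which are unions -/

section
variable {ι κ : Type*} [Fintype ι] [DecidableEq ι] [Fintype κ] [DecidableEq κ]
  {X : Env} {l1 : ι → ℤ × ℤ} {l2 : κ → ℤ × ℤ}

lemma image_elim (l1 : ι → ℤ × ℤ) (l2 : κ → ℤ × ℤ) :
    univ.image (Sum.elim l1 l2) = univ.image l1 ∪ univ.image l2 := by
  ext e
  simp only [mem_image, mem_union, mem_univ, true_and, Sum.exists, Sum.elim_inl, Sum.elim_inr]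

lemma Fam.inl (h : Fam X (Sum.elim l1 l2)) : Fam X l1 :=
  ⟨fun i j hij => by
    have : (Sum.inl i : ι ⊕ κ) = Sum.inl j := h.inj (by simpa using hij)
    exact Sum.inl.inj this, fun i => h.mem (Sum.inl i)⟩

lemma Fam.inr (h : Fam X (Sum.elim l1 l2)) : Fam X l2 :=
  ⟨fun i j hij => by
    have : (Sum.inr i : ι ⊕ κ) = Sum.inr j := h.inj (by simpa using hij)
    exact Sum.inr.inj this, fun i => h.mem (Sum.inr i)⟩

lemma Fam.disj (h : Fam X (Sum.elim l1 l2)) : Disjoint (univ.image l1) (univ.image l2) := by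
  rw [disjoint_left]
  intro e h1 h2
  obtain ⟨i, -, rfl⟩ := mem_image.1 h1
  obtain ⟨j, -, hj⟩ := mem_image.1 h2
  have : (Sum.inl i : ι ⊕ κ) = Sum.inr j := h.inj (by simpa using hj.symm)
  simp at this

lemma osn_elim (l1 : ι → ℤ × ℤ) (l2 : κ → ℤ × ℤ) (s : ι ⊕ κ → Bool) :
    osn (Sum.elim l1 l2) (gp (Sum.elim l1 l2)) s =
      osn l1 (gp l1) (fun i => s (.inl i)) ∪ osn l2 (gp l2) (fun j => s (.inr j)) := by
  ext e
  unfold osn gp
  simp only [mem_image, mem_union, mem_filter, mem_univ, true_and, Sum.exists, Sum.elim_inl,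
    Sum.elim_inr]

lemma sum_elim_states {M : Type*} [AddCommMonoid M] (F : (ι ⊕ κ → Bool) → M) :
    ∑ s : ι ⊕ κ → Bool, F s = ∑ s1 : ι → Bool, ∑ s2 : κ → Bool, F (Sum.elim s1 s2) := by
  rw [← Fintype.sum_prod_type' (f := fun s1 s2 => F (Sum.elim s1 s2))]
  rw [← (Equiv.sumArrowEquivProdArrow ι κ Bool).symm.sum_comp]
  rfl

/-- **The amplitude of a union of two families**: first the states of `l1`, then those of `l2`. -/
theorem AG_elim (h : Fam X (Sum.elim l1 l2)) (ct : ℤ × ℤ) (a b : ι ⊕ κ → ℂ) (ω : Finset (ℤ × ℤ)) :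
    AG X (Sum.elim l1 l2) ct a b ω =
      ∑ s1 : ι → Bool, (∏ i, if s1 i then b (.inl i) else a (.inl i)) *
        AG X l2 ct (fun j => a (.inr j)) (fun j => b (.inr j))
          (osn l1 (gp l1) s1 ∪ (ω \ univ.image l1)) := by
  rw [AG_eq h, sum_elim_states]
  refine sum_congr rfl fun s1 _ => ?_
  rw [AG_eq h.inr, mul_sum]
  refine sum_congr rfl fun s2 _ => ?_
  rw [Fintype.prod_sum_type]
  simp only [Sum.elim_inl, Sum.elim_inr]
  rw [mul_assoc]
  congr 3
  have h1 := osn_sub (h.inl.tiles ω) s1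
  rw [h.inl.frE] at h1
  have h2 := osn_sub (h.inr.tiles ω) s2
  rw [h.inr.frE] at h2
  have hd := h.disj
  have e1 := osn_elim l1 l2 (Sum.elim s1 s2)
  simp only [Sum.elim_inl, Sum.elim_inr] at e1
  rw [e1, image_elim]
  have hs := h.sub
  rw [image_elim] at hs
  ext e
  have k1 := @h1 e
  have k2 := @h2 e
  have k3 : e ∈ univ.image l1 → e ∉ univ.image l2 := fun hh => disjoint_left.1 hd hh
  have k4 : e ∈ univ.image l1 → e ∈ X.E := fun hh => hs (mem_union_left _ hh)
  simp only [mem_union, mem_inter, mem_sdiff]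
  tauto

/-- **Random labels as tiles**: averaging over the states of the labels `l2`. -/
theorem Ec_AG (h : Fam X (Sum.elim l1 l2)) (q : ℤ × ℤ → ℂ) (ct : ℤ × ℤ) (a b : ι → ℂ)
    (ω : Finset (ℤ × ℤ)) :
    Ec q (univ.image l2) (fun ρ => AG X l1 ct a b ((ω \ univ.image l2) ∪ ρ)) =
      AG X (Sum.elim l1 l2) ct (Sum.elim a (wA l2 (gp l2) q)) (Sum.elim b (wB l2 (gp l2) q)) ω := by
  have h3 := Ec_states (h.inr.tiles ω) q (fun ρ => AG X l1 ct a b ((ω \ univ.image l2) ∪ ρ))
  rw [h.inr.frE] at h3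
  rw [h3, AG_eq h, sum_elim_states, sum_comm]
  refine sum_congr rfl fun s2 _ => ?_
  rw [AG_eq h.inl, mul_sum]
  refine sum_congr rfl fun s1 _ => ?_
  rw [Fintype.prod_sum_type]
  simp only [Sum.elim_inl, Sum.elim_inr]
  have h1 := osn_sub (h.inl.tiles ω) s1
  rw [h.inl.frE] at h1
  have h2 := osn_sub (h.inr.tiles ω) s2
  rw [h.inr.frE] at h2
  have hd := h.disj
  have e1 := osn_elim l1 l2 (Sum.elim s1 s2)
  simp only [Sum.elim_inl, Sum.elim_inr] at e1
  rw [e1, image_elim]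
  have hs := h.sub
  rw [image_elim] at hs
  have e2 : osn l1 (gp l1) s1 ∪ ((ω \ univ.image l2 ∪ osn l2 (gp l2) s2) ∩ (X.E \ univ.image l1)) =
      osn l1 (gp l1) s1 ∪ osn l2 (gp l2) s2 ∪ (ω ∩ (X.E \ (univ.image l1 ∪ univ.image l2))) := by
    ext e
    have k1 := @h1 e
    have k2 := @h2 e
    have k3 : e ∈ univ.image l2 → e ∉ univ.image l1 := fun hh h' => disjoint_left.1 hd h' hh
    have k4 : e ∈ univ.image l2 → e ∈ X.E := fun hh => hs (mem_union_right _ hh)
    simp only [mem_union, mem_inter, mem_sdiff]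
    tauto
  rw [e2]
  ring

end

/-! ### The row and the extra tiles -/

variable {N : ℕ} {κ : Type*} [Fintype κ] [DecidableEq κ] {X : Env} {x0 y0 : ℤ} {l2 : κ → ℤ × ℤ}
  {EL EU : Finset (ℤ × ℤ)}

/-- labels of the row and of the extra tiles -/
def lbE (N : ℕ) (x0 y0 : ℤ) (l2 : κ → ℤ × ℤ) : Fin N ⊕ κ → ℤ × ℤ := Sum.elim (rl (N := N) x0 y0) l2

/-- labels of the extra tiles -/
noncomputable def XS (l2 : κ → ℤ × ℤ) : Finset (ℤ × ℤ) := univ.image l2

lemma image_lbE (N : ℕ) (x0 y0 : ℤ) (l2 : κ → ℤ × ℤ) :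
    univ.image (lbE N x0 y0 l2) = RS N x0 y0 ∪ XS l2 := image_elim _ _

/-- the amplitudes of a row alone -/
lemma AR_eq_AG (X : Env) (x0 y0 : ℤ) (y : Fin N × Dir) (a b : Fin N → ℂ) (ω : Finset (ℤ × ℤ)) :
    AR X x0 y0 y a b ω = AG X (rl x0 y0) (rcr x0 y0 y) a b ω := rfl

/-- the random labels: the row, the extra tiles, labels `EL` below and `EU` above the row -/
structure LayE (X : Env) (N : ℕ) (x0 y0 : ℤ) (l2 : κ → ℤ × ℤ) (EL EU : Finset (ℤ × ℤ)) : Prop where
  fam : Fam X (lbE N x0 y0 l2)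
  eq : X.E \ (RS N x0 y0 ∪ XS l2) = EL ∪ EU
  low : ∀ e ∈ EL, e.2 - e.1 < 2 * y0
  upp : ∀ e ∈ EU, 2 * y0 + 2 < e.2 - e.1

lemma LayE.row (L : LayE X N x0 y0 l2 EL EU) : Pool.Agent.H30.Mid.HasRow X N x0 y0 := by
  intro e he
  obtain ⟨c, rfl⟩ := mem_RS.1 he
  exact L.fam.mem (.inl c)

lemma LayE.disj (L : LayE X N x0 y0 l2 EL EU) : Disjoint EL EU := by
  rw [disjoint_left]
  intro e h1 h2
  have := L.low e h1
  have := L.upp e h2
  omega

lemma LayE.disj' (L : LayE X N x0 y0 l2 EL EU) : Disjoint EL (EU.map (tr (1, -1))) := by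
  rw [disjoint_left]
  intro e h1 h2
  have h3 := L.low e h1
  have h4 := L.upp _ (mem_tr.1 h2)
  simp only [Prod.fst_sub, Prod.snd_sub] at h4
  omega

/-- weights `α` with coupons `1` at the columns `S` -/
def eA (S : Finset (Fin N)) (a : ℂ) (a2 : κ → ℂ) : Fin N ⊕ κ → ℂ := Sum.elim (cA S a) a2

/-- weights `β` with coupons `-1` at the columns `S` -/
def eB (S : Finset (Fin N)) (b : ℂ) (b2 : κ → ℂ) : Fin N ⊕ κ → ℂ := Sum.elim (cB S b) b2

/-- **Amplitude of the coupons at the positions `s`** (counted from the column `k`), on glued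
configurations -/
noncomputable def AmpE (X : Env) (N : ℕ) (x0 y0 : ℤ) (l2 : κ → ℤ × ℤ) (ct : ℤ × ℤ) (a b : ℂ)
    (a2 b2 : κ → ℂ) (EL EU : Finset (ℤ × ℤ)) (k : ℤ) (s : Finset ℤ) (ω : Finset (ℤ × ℤ)) : ℂ :=
  AG X (lbE N x0 y0 l2) ct (eA (cs N k s) a a2) (eB (cs N k s) b b2) (ug EL EU (1, -1) ω)

/-- amplitude of the coupons at the column `k` and at the positions `s` (none if `0 ∈ s`) -/
noncomputable def AmpZ (X : Env) (N : ℕ) (x0 y0 : ℤ) (l2 : κ → ℤ × ℤ) (ct : ℤ × ℤ) (a b : ℂ)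
    (a2 b2 : κ → ℂ) (EL EU : Finset (ℤ × ℤ)) (k : ℤ) (s : Finset ℤ) (ω : Finset (ℤ × ℤ)) : ℂ :=
  if 0 ∈ s then 0 else AmpE X N x0 y0 l2 ct a b a2 b2 EL EU k (insert 0 s) ω

/-- the average with a coupon at the column `k` and weights `a + z`, `b - z` elsewhere -/
noncomputable def GZ (X : Env) (N : ℕ) (x0 y0 : ℤ) (l2 : κ → ℤ × ℤ) (ct : ℤ × ℤ) (a b : ℂ)
    (a2 b2 : κ → ℂ) (EL EU : Finset (ℤ × ℤ)) (k : Fin N) (z : ℂ) : ℂ :=
  Ec (fun _ => (1 / 2 : ℂ)) (EL ∪ EU) (AG X (lbE N x0 y0 l2) ct (eA {k} (a + z) a2)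
    (eB {k} (b - z) b2))

lemma cs_insert (k : Fin N) (s : Finset ℤ) :
    cs N (k : ℕ) (insert 0 s) = insert k (cs N (k : ℕ) s) := by
  ext c
  unfold cs
  rw [mem_filter, mem_insert, mem_insert, mem_filter]
  constructor
  · rintro ⟨-, h | h⟩
    · left; exact Fin.ext (by omega)
    · right; exact ⟨mem_univ _, h⟩
  · rintro (h | h)
    · refine ⟨mem_univ _, Or.inl ?_⟩
      rw [h]; ring
    · exact ⟨mem_univ _, Or.inr h.2⟩

/-- **The expansion of `GZ`.** -/
theorem GZ_expand (L : LayE X N x0 y0 l2 EL EU) (ct : ℤ × ℤ) (a b : ℂ) (a2 b2 : κ → ℂ) (k : Fin N)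
    (z : ℂ) : GZ X N x0 y0 l2 ct a b a2 b2 EL EU k z = ∑ m ∈ range N, z ^ m *
      ∑ s ∈ powersetCard m (Finset.Ico (-((k : ℕ) : ℤ)) ((N : ℤ) - (k : ℕ))),
        Ec (fun _ => (1 / 2 : ℂ)) (gE EL EU (1, -1)) (AmpZ X N x0 y0 l2 ct a b a2 b2 EL EU (k : ℕ) s) := by
  classical
  unfold GZ
  set T : Finset (Fin N ⊕ κ) := (univ.erase k).map Function.Embedding.inl with hT
  have hmemT : ∀ c : Fin N, (Sum.inl c : Fin N ⊕ κ) ∈ T ↔ c ≠ k := by
    intro c
    rw [hT, mem_map]
    constructor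
    · rintro ⟨c', hc', h⟩
      have h1 : c' = c := Sum.inl.inj h
      rw [← h1]; exact (mem_erase.1 hc').1
    · intro h
      exact ⟨c, mem_erase.2 ⟨h, mem_univ _⟩, rfl⟩
  have hmemT2 : ∀ j : κ, (Sum.inr j : Fin N ⊕ κ) ∉ T := by
    intro j
    rw [hT, mem_map]
    rintro ⟨c', _, h⟩
    simp at h
  have eqA : (eA {k} (a + z) a2 : Fin N ⊕ κ → ℂ) = fun i => if i ∈ T then eA {k} a a2 i + z else
      eA {k} a a2 i := by
    funext i
    rcases i with c | j
    · by_cases hc : c = k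
      · subst hc
        have h1 : (Sum.inl c : Fin N ⊕ κ) ∉ T := fun h => (hmemT c).1 h rfl
        rw [if_neg h1]
        simp [eA, cA]
      · rw [if_pos ((hmemT c).2 hc)]
        simp [eA, cA, hc]
    · rw [if_neg (hmemT2 j)]
      rfl
  have eqB : (eB {k} (b - z) b2 : Fin N ⊕ κ → ℂ) = fun i => if i ∈ T then eB {k} b b2 i - z else
      eB {k} b b2 i := by
    funext i
    rcases i with c | j
    · by_cases hc : c = k
      · subst hc
        have h1 : (Sum.inl c : Fin N ⊕ κ) ∉ T := fun h => (hmemT c).1 h rfl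
        rw [if_neg h1]
        simp [eB, cB]
      · rw [if_pos ((hmemT c).2 hc)]
        simp [eB, cB, hc]
    · rw [if_neg (hmemT2 j)]
      rfl
  have e1 : (AG X (lbE N x0 y0 l2) ct (eA {k} (a + z) a2) (eB {k} (b - z) b2)) = fun ω =>
      ∑ S ∈ T.powerset, z ^ S.card * AG X (lbE N x0 y0 l2) ct (fun i => if i ∈ S then 1 else
        eA {k} a a2 i) (fun i => if i ∈ S then -1 else eB {k} b b2 i) ω := by
    funext ω
    rw [eqA, eqB]
    exact AG_coupons X _ ct T (eA {k} a a2) (eB {k} b b2) z ω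
  rw [e1, Pool.Agent.H30.Mid.Ec_sum']
  simp only [Pool.Agent.H30.Mid.Ec_smul']
  -- subsets of `T` = images of subsets of `univ.erase k`
  have hpow : ∀ F : Finset (Fin N ⊕ κ) → ℂ, ∑ S ∈ T.powerset, F S =
      ∑ S ∈ (univ.erase k).powerset, F (S.map Function.Embedding.inl) := by
    intro F
    symm
    refine sum_bij' (fun S _ => S.map Function.Embedding.inl)
      (fun S _ => univ.filter fun c : Fin N => (Sum.inl c : Fin N ⊕ κ) ∈ S) ?_ ?_ ?_ ?_ ?_
    · intro S hS
      rw [mem_powerset] at hS ⊢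
      exact map_subset_map.2 hS
    · intro S hS
      rw [mem_powerset] at hS ⊢
      intro c hc
      have h1 := hS (mem_filter.1 hc).2
      exact mem_erase.2 ⟨(hmemT c).1 h1, mem_univ _⟩
    · intro S _
      ext c
      rw [mem_filter, mem_map]
      constructor
      · rintro ⟨-, c', hc', h⟩
        have h1 : c' = c := Sum.inl.inj h
        rw [← h1]; exact hc'
      · intro h
        exact ⟨mem_univ _, c, h, rfl⟩
    · intro S hS
      rw [mem_powerset] at hS
      ext i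
      rw [mem_map]
      constructor
      · rintro ⟨c, hc, rfl⟩
        exact (mem_filter.1 hc).2
      · intro hi
        rcases i with c | j
        · exact ⟨c, mem_filter.2 ⟨mem_univ _, hi⟩, rfl⟩
        · exact absurd (hS hi) (hmemT2 j)
    · intro S _; rfl
  rw [hpow, sum_powerset]
  have hcard : (univ.erase k : Finset (Fin N)).card + 1 = N := by
    rw [card_erase_of_mem (mem_univ _), card_univ, Fintype.card_fin]
    have := k.2
    omega
  rw [hcard]
  refine sum_congr rfl fun m _ => ?_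
  rw [mul_sum]
  -- the positions with 0 do not contribute
  have hz : ∀ s ∈ powersetCard m (Finset.Ico (-((k : ℕ) : ℤ)) ((N : ℤ) - (k : ℕ))),
      s ∉ powersetCard m ((Finset.Ico (-((k : ℕ) : ℤ)) ((N : ℤ) - (k : ℕ))).erase 0) →
      z ^ m * Ec (fun _ => (1 / 2 : ℂ)) (gE EL EU (1, -1))
        (AmpZ X N x0 y0 l2 ct a b a2 b2 EL EU (k : ℕ) s) = 0 := by
    intro s hs hs'
    have h0 : (0 : ℤ) ∈ s := by
      by_contra h0
      apply hs'
      rw [mem_powersetCard] at hs ⊢
      exact ⟨fun i hi => mem_erase.2 ⟨fun h => h0 (h ▸ hi), hs.1 hi⟩, hs.2⟩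
    have : (AmpZ X N x0 y0 l2 ct a b a2 b2 EL EU (k : ℕ) s) = fun _ => 0 := by
      funext ω; unfold AmpZ; rw [if_pos h0]
    rw [this, Ec_const, mul_zero]
  rw [← sum_subset (powersetCard_mono (erase_subset 0 _)) hz]
  have hI : Function.Injective (fun c : Fin N => ((c : ℕ) : ℤ) - (k : ℕ)) := by
    intro c c' h
    simp only at h
    exact Fin.ext (by omega)
  have hinj : ∀ s ⊆ Finset.Ico (-((k : ℕ) : ℤ)) ((N : ℤ) - (k : ℕ)),
      (cs N (k : ℕ) s).image (fun c : Fin N => ((c : ℕ) : ℤ) - (k : ℕ)) = s := by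
    intro s hs
    ext i
    rw [mem_image]
    constructor
    · rintro ⟨c, hc, rfl⟩
      unfold cs at hc
      exact (mem_filter.1 hc).2
    · intro hi
      have h1 := mem_Ico.1 (hs hi)
      refine ⟨⟨(i + (k : ℕ)).toNat, by omega⟩, ?_, ?_⟩
      · unfold cs
        rw [mem_filter]
        refine ⟨mem_univ _, ?_⟩
        have e : (((i + (k : ℕ)).toNat : ℕ) : ℤ) - (k : ℕ) = i := by omega
        simp only [e]
        exact hi
      · simp only
        omega
  symm
  refine sum_bij' (fun s _ => cs N (k : ℕ) s)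
    (fun S _ => S.image (fun c : Fin N => ((c : ℕ) : ℤ) - (k : ℕ))) ?_ ?_ ?_ ?_ ?_
  · intro s hs
    rw [mem_powersetCard] at hs ⊢
    have hs1 : s ⊆ Finset.Ico (-((k : ℕ) : ℤ)) ((N : ℤ) - (k : ℕ)) := hs.1.trans (erase_subset _ _)
    refine ⟨fun c hc => mem_erase.2 ⟨?_, mem_univ _⟩, ?_⟩
    · rintro rfl
      unfold cs at hc
      have h1 := (mem_filter.1 hc).2
      rw [sub_self] at h1
      exact (mem_erase.1 (hs.1 h1)).1 rfl
    · rw [← hs.2, ← card_image_of_injective (cs N (k : ℕ) s) hI, hinj s hs1]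
  · intro S hS
    rw [mem_powersetCard] at hS ⊢
    refine ⟨?_, ?_⟩
    · intro i hi
      obtain ⟨c, hc, rfl⟩ := mem_image.1 hi
      have h1 := (mem_erase.1 (hS.1 hc)).1
      have h2 := c.2
      rw [mem_erase, mem_Ico]
      refine ⟨fun h => h1 (Fin.ext (by omega)), by omega, by omega⟩
    · rw [card_image_of_injective _ hI]; exact hS.2
  · intro s hs
    exact hinj s ((mem_powersetCard.1 hs).1.trans (erase_subset _ _))
  · intro S _
    ext c
    unfold cs
    rw [mem_filter, mem_image]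
    constructor
    · rintro ⟨-, c', hc', h⟩
      rw [← hI h]; exact hc'
    · intro h
      exact ⟨mem_univ _, c, h, rfl⟩
  · intro s hs
    have hs' := mem_powersetCard.1 hs
    have h0 : (0 : ℤ) ∉ s := fun h => (mem_erase.1 (hs'.1 h)).1 rfl
    have e2 : (cs N (k : ℕ) s).card = m := by
      rw [← hs'.2, ← card_image_of_injective (cs N (k : ℕ) s) hI,
        hinj s (hs'.1.trans (erase_subset _ _))]
    rw [card_map, e2]
    congr 1
    rw [Ec_unglue L.disj L.disj']
    refine Ec_congr fun ω _ => ?_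
    unfold AmpZ AmpE
    rw [if_neg h0, cs_insert]
    congr 1
    · funext i
      rcases i with c | j
      · have e3 : (Sum.inl c : Fin N ⊕ κ) ∈ (cs N (k : ℕ) s).map Function.Embedding.inl ↔
            c ∈ cs N (k : ℕ) s := by
          rw [mem_map]
          constructor
          · rintro ⟨c', hc', h⟩
            have h1 : c' = c := Sum.inl.inj h
            rw [← h1]; exact hc'
          · intro h
            exact ⟨c, h, rfl⟩
        unfold eA cA
        simp only [Sum.elim_inl, mem_insert, mem_singleton]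
        by_cases h1 : c ∈ cs N (k : ℕ) s <;> by_cases h2 : c = k <;> simp [e3, h1, h2]
      · have e3 : (Sum.inr j : Fin N ⊕ κ) ∉ (cs N (k : ℕ) s).map Function.Embedding.inl := by
          rw [mem_map]
          rintro ⟨c', _, h⟩
          simp at h
        simp [eA, e3]
    · funext i
      rcases i with c | j
      · have e3 : (Sum.inl c : Fin N ⊕ κ) ∈ (cs N (k : ℕ) s).map Function.Embedding.inl ↔
            c ∈ cs N (k : ℕ) s := by
          rw [mem_map]
          constructor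
          · rintro ⟨c', hc', h⟩
            have h1 : c' = c := Sum.inl.inj h
            rw [← h1]; exact hc'
          · intro h
            exact ⟨c, h, rfl⟩
        unfold eB cB
        simp only [Sum.elim_inl, mem_insert, mem_singleton]
        by_cases h1 : c ∈ cs N (k : ℕ) s <;> by_cases h2 : c = k <;> simp [e3, h1, h2]
      · have e3 : (Sum.inr j : Fin N ⊕ κ) ∉ (cs N (k : ℕ) s).map Function.Embedding.inl := by
          rw [mem_map]
          rintro ⟨c', _, h⟩
          simp at h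
        simp [eB, e3]

end Pool.Agent.H30.W
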