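import Mathlib
import Pool.Agent.H40.W.DnZ
import Pool.Agent.H81.G1.Mid1
import Pool.Agent.H81.G1.HalfB

set_option autoImplicit false
open Finset

/-! # Walks of the tiles in the glued configuration

`gstep` : a step of `uf L` at a tile below the row (`e = false`) or above the row (`e = true`) is a step of
the glued configuration, forwards or backwards. `gwalk_fw`, `gwalk_bw` : the same for walks. -/

namespace Pool.Agent.H30.W

open Pool.Agent.H75.Perc Pool.Agent.H75.TwoArm Pool.Agent.Q1 Pool.Agent.H81.G1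
open Pool.Agent.H30.Mid
open Pool.Agent.H69.M6b (lbt lbt_inj lbt_odd pr0 PR)
open Pool.Agent.Q1.M6b.Gl (OddV nx_add lab_add plab_add)
open Pool.Agent.Q1.M6b.Gd (sm)
open Pool.Agent.H74.R45 (he ve)
open Pool.Agent.H40.W (UW_uf uf_rev UW_UW)

/-- a step at an outgoing end is a step backwards -/
lemma ustep_pv (L : Finset (ℤ × ℤ)) {z : (ℤ × ℤ) × Dir} (hz : ui z = false) :
    uc (uf L z) = pv L (uc z) ∧ plab (uc z) = lbt z.1.1 z.1.2 ∧ ui (uf L z) = false := by
  have h1 : ui (UW (uf L z)) = true := by rw [ui_UW, ui_uf, hz]; rfl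
  obtain ⟨a1, -, a3, -⟩ := ustep L h1
  rw [uf_rev, Pool.Agent.H81.G1.uc_UW, Pool.Agent.H81.G1.uc_UW] at a1
  rw [Pool.Agent.H81.G1.uc_UW, UW_uf] at a3
  refine ⟨?_, ?_, ?_⟩
  · rw [a1, pv_nx]
  · rw [a1, plab_nx]
    exact a3
  · rw [ui_uf, hz]

/-- corner of an end in the glued configuration -/
def gc (e : Bool) (z : (ℤ × ℤ) × Dir) : ℤ × ℤ := if e then uc z + vg else uc z

/-- label of a tile in the glued configuration -/
def gl0 (e : Bool) (u : ℤ × ℤ) : ℤ × ℤ := if e then lbt u.1 u.2 + vg else lbt u.1 u.2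

/-- the glued configuration `Lg` at the tile `u` -/
def Glt (e : Bool) (L Lg : Finset (ℤ × ℤ)) (u : ℤ × ℤ) : Prop :=
  if e then (gl0 e u ∈ Lg ↔ lbt u.1 u.2 ∉ L) else (gl0 e u ∈ Lg ↔ lbt u.1 u.2 ∈ L)

/-- **One step in the glued configuration.** -/
theorem gstep {e : Bool} {L Lg : Finset (ℤ × ℤ)} {z : (ℤ × ℤ) × Dir} (h : Glt e L Lg z.1) :
    (ui z = !e → nx Lg (gc e z) = gc e (uf L z) ∧ lab (gc e z) = gl0 e z.1) ∧
    (ui z = e → pv Lg (gc e z) = gc e (uf L z) ∧ plab (gc e z) = gl0 e z.1) := by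
  cases e
  · simp only [Glt, gl0, gc, Bool.false_eq_true, if_false, Bool.not_false] at h ⊢
    constructor
    · intro hz
      obtain ⟨a1, -, a3, -⟩ := ustep L hz
      refine ⟨?_, a3⟩
      rw [a1]
      refine nx_agree ?_
      rw [a3]; exact h
    · intro hz
      obtain ⟨a1, a2, -⟩ := ustep_pv L hz
      refine ⟨?_, a2⟩
      rw [a1]
      refine pv_agree ?_
      rw [a2]; exact h
  · simp only [Glt, gl0, gc, if_true, Bool.not_true] at h ⊢
    constructor
    · intro hz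
      obtain ⟨a1, a2, -⟩ := ustep_pv L hz
      refine ⟨?_, ?_⟩
      · rw [a1]
        refine nx_add vg_odd ?_
        rw [lab_add vg_odd, a2]
        exact h
      · rw [lab_add vg_odd, a2]
    · intro hz
      obtain ⟨a1, -, a3, -⟩ := ustep L hz
      have a4 : nx Lg (uc (uf L z) + vg) = uc z + vg := by
        have h1 : plab (uc (uf L z)) = lbt z.1.1 z.1.2 := by rw [a1, plab_nx, a3]
        have h2 := nx_add vg_odd (ω := L) (ω' := Lg) (c := uc (uf L z)) (by
          rw [lab_add vg_odd, h1]; exact h)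
        rw [h2]
        congr 1
        rw [a1, pv_nx]
      refine ⟨?_, ?_⟩
      · rw [← a4, pv_nx]
      · rw [plab_add vg_odd, a3]

/-- **Walks forwards in the glued configuration.** -/
theorem gwalk_fw {e : Bool} {L Lg : Finset (ℤ × ℤ)} {z : (ℤ × ℤ) × Dir} {n : ℕ}
    (h : ∀ i < n, Glt e L Lg ((uf L)^[i] z).1) (hz : ui z = !e) :
    (∀ i ≤ n, (nx Lg)^[i] (gc e z) = gc e ((uf L)^[i] z)) ∧
    ∀ i < n, lab ((nx Lg)^[i] (gc e z)) = gl0 e ((uf L)^[i] z).1 := by
  have key : ∀ i ≤ n, (nx Lg)^[i] (gc e z) = gc e ((uf L)^[i] z) := by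
    intro i
    induction i with
    | zero => intro _; rfl
    | succ i ih =>
      intro hi
      rw [Function.iterate_succ_apply', Function.iterate_succ_apply', ih (by omega)]
      exact ((gstep (h i (by omega))).1 (by rw [ui_iter, hz])).1
  refine ⟨key, fun i hi => ?_⟩
  rw [key i hi.le]
  exact ((gstep (h i hi)).1 (by rw [ui_iter, hz])).2

/-- **Walks backwards in the glued configuration.** -/
theorem gwalk_bw {e : Bool} {L Lg : Finset (ℤ × ℤ)} {z : (ℤ × ℤ) × Dir} {n : ℕ}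
    (h : ∀ i < n, Glt e L Lg ((uf L)^[i] z).1) (hz : ui z = e) :
    (∀ i ≤ n, (pv Lg)^[i] (gc e z) = gc e ((uf L)^[i] z)) ∧
    ∀ i < n, plab ((pv Lg)^[i] (gc e z)) = gl0 e ((uf L)^[i] z).1 := by
  have key : ∀ i ≤ n, (pv Lg)^[i] (gc e z) = gc e ((uf L)^[i] z) := by
    intro i
    induction i with
    | zero => intro _; rfl
    | succ i ih =>
      intro hi
      rw [Function.iterate_succ_apply', Function.iterate_succ_apply', ih (by omega)]
      exact ((gstep (h i (by omega))).2 (by rw [ui_iter, hz])).1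
  refine ⟨key, fun i hi => ?_⟩
  rw [key i hi.le]
  exact ((gstep (h i hi)).2 (by rw [ui_iter, hz])).2

/-! ### The seam -/

variable {N : ℕ} {x0 y0 : ℤ}

/-- first position of the walk of the column `c` on the side `e` -/
def z0 (x0 y0 : ℤ) (e : Bool) (c : ℕ) : (ℤ × ℤ) × Dir :=
  if e then ((x0 + c, y0 + 1), .S) else ((x0 + c, y0 - 1), .N)

/-- the end of the column `c` of the row on the side `e` -/
def zr0 (x0 y0 : ℤ) (e : Bool) (c : ℕ) : (ℤ × ℤ) × Dir :=
  if e then ((x0 + c, y0), .N) else ((x0 + c, y0), .S)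

lemma gc_z0 (e : Bool) (c : Fin N) : gc e (z0 x0 y0 e c) = sc x0 y0 c := by
  unfold sc
  cases e
  · rw [seam_S, rcr_S]
    unfold gc z0
    simp only [Bool.false_eq_true, if_false]
    rw [uc_N, sub_add_cancel]
  · rw [seam_N, rcr_N]
    unfold gc z0
    simp only [if_true]
    rw [uc_S]

lemma gc_zr0 (e : Bool) (c : Fin N) : gc e (zr0 x0 y0 e c) = sc x0 y0 c := by
  unfold sc
  cases e
  · rw [seam_S, rcr_S]
    unfold gc zr0
    simp only [Bool.false_eq_true, if_false]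
    rw [uc_S]
  · rw [seam_N, rcr_N]
    unfold gc zr0
    simp only [if_true]
    rw [uc_N]

lemma UW_zr0 (e : Bool) (c : ℕ) : UW (zr0 x0 y0 e c) = z0 x0 y0 e c := by
  cases e <;> rfl

lemma ui_z0 (e : Bool) (c : Fin N) : ui (z0 x0 y0 e c) = rp x0 y0 c := by
  unfold rp rl ui z0
  cases e
  · simp only [Bool.false_eq_true, if_false, Dir.v]
    have h : pr0 (lbt (x0 + ((c : ℕ) : ℤ)) (y0 - 1)) = !pr0 (lbt (x0 + ((c : ℕ) : ℤ)) y0) := by
      cases h1 : pr0 (lbt (x0 + ((c : ℕ) : ℤ)) y0)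
      · have := pr0_lbt_false.1 h1
        exact pr0_lbt_true.2 (by omega)
      · have := pr0_lbt_true.1 h1
        exact pr0_lbt_false.2 (by omega)
    rw [h]
    cases pr0 (lbt (x0 + ((c : ℕ) : ℤ)) y0) <;> rfl
  · simp only [if_true, Dir.v]
    have h : pr0 (lbt (x0 + ((c : ℕ) : ℤ)) (y0 + 1)) = !pr0 (lbt (x0 + ((c : ℕ) : ℤ)) y0) := by
      cases h1 : pr0 (lbt (x0 + ((c : ℕ) : ℤ)) y0)
      · have := pr0_lbt_false.1 h1
        exact pr0_lbt_true.2 (by omega)
      · have := pr0_lbt_true.1 h1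
        exact pr0_lbt_false.2 (by omega)
    rw [h]
    cases pr0 (lbt (x0 + ((c : ℕ) : ℤ)) y0) <;> rfl

/-- labels of the tiles on one side in the glued configuration -/
def HG (y0 : ℤ) (e : Bool) : Set (ℤ × ℤ) := if e then HN y0 else HS y0

/-- tiles on the side `e` of the row -/
def OnS (y0 : ℤ) (e : Bool) (u : ℤ × ℤ) : Prop := if e then y0 + 1 ≤ u.2 else u.2 < y0

lemma gl0_HG {e : Bool} {u : ℤ × ℤ} (h : OnS y0 e u) : gl0 e u ∈ HG y0 e := by
  unfold gl0 HG
  unfold OnS at h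
  cases e
  · simp only [Bool.false_eq_true, if_false] at h ⊢
    exact lbt_HS h
  · simp only [if_true] at h ⊢
    exact lbt_HN h

/-- the corner of the seam is not on the side -/
lemma seam_HG (e : Bool) (c : Fin N) :
    (rp x0 y0 c = !e → plab (sc x0 y0 c) ∉ HG y0 e) ∧ (rp x0 y0 c = e → lab (sc x0 y0 c) ∉ HG y0 e) := by
  have h := seam_lab (y0 := y0) (x0 - y0 + 1 + (c : ℕ))
  unfold HG sc
  cases e
  · simp only [Bool.false_eq_true, if_false, Bool.not_false]
    constructor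
    · intro hc
      have h1 := (rp_true c).1 hc
      exact (h.1 (by omega)).2
    · intro hc
      have h1 := (rp_false c).1 hc
      exact (h.2 (by omega)).2
  · simp only [if_true, Bool.not_true]
    constructor
    · intro hc
      have h1 := (rp_false c).1 hc
      exact (h.2 (by omega)).1
    · intro hc
      have h1 := (rp_true c).1 hc
      exact (h.1 (by omega)).1

/-! ### Paths in the region -/

/-- a walk of the column `c` on the side `e` -/
structure WK (L : Finset (ℤ × ℤ)) (x0 y0 : ℤ) (e : Bool) (In : ℤ × ℤ → Prop) (c : ℕ) (n : ℕ)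
    (z' : (ℤ × ℤ) × Dir) : Prop where
  tgt : (uf L)^[n] (z0 x0 y0 e c) = z'
  mem : ∀ i < n, In ((uf L)^[i] (z0 x0 y0 e c)).1

variable {L Lg : Finset (ℤ × ℤ)} {In : ℤ × ℤ → Prop} {e : Bool}

/-- **The walk of a column in the glued configuration.** -/
theorem WK.glued (hg : ∀ u, In u → Glt e L Lg u) (hs : ∀ u, In u → OnS y0 e u) {c : Fin N} {n : ℕ}
    {z' : (ℤ × ℤ) × Dir} (h : WK L x0 y0 e In c n z') :
    (rp x0 y0 c = !e → (∀ t < n, lab ((nx Lg)^[t] (sc x0 y0 c)) ∈ HG y0 e) ∧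
      (nx Lg)^[n] (sc x0 y0 c) = gc e z') ∧
    (rp x0 y0 c = e → (∀ t < n, plab ((pv Lg)^[t] (sc x0 y0 c)) ∈ HG y0 e) ∧
      (pv Lg)^[n] (sc x0 y0 c) = gc e z') := by
  have hgl : ∀ i < n, Glt e L Lg ((uf L)^[i] (z0 x0 y0 e c)).1 := fun i hi => hg _ (h.mem i hi)
  constructor
  · intro hc
    obtain ⟨a1, a2⟩ := gwalk_fw hgl (by rw [ui_z0, hc])
    rw [gc_z0] at a1 a2
    refine ⟨fun t ht => ?_, ?_⟩
    · rw [a2 t ht]
      exact gl0_HG (hs _ (h.mem t ht))
    · rw [a1 n le_rfl, h.tgt]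
  · intro hc
    obtain ⟨a1, a2⟩ := gwalk_bw hgl (by rw [ui_z0, hc])
    rw [gc_z0] at a1 a2
    refine ⟨fun t ht => ?_, ?_⟩
    · rw [a2 t ht]
      exact gl0_HG (hs _ (h.mem t ht))
    · rw [a1 n le_rfl, h.tgt]

/-- the other end of a walk between two columns -/
lemma WK.par {c c' : Fin N} {n : ℕ} (h : WK L x0 y0 e In c n (zr0 x0 y0 e c')) :
    rp x0 y0 c' = !rp x0 y0 c := by
  have h1 := ui_iter L (z0 x0 y0 e c) n
  rw [h.tgt, ui_z0, ← UW_UW' (zr0 x0 y0 e c')] at h1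
  rw [ui_UW, UW_zr0, ui_z0] at h1
  rw [← h1, Bool.not_not]
where
  UW_UW' (z : (ℤ × ℤ) × Dir) : UW (UW z) = z := Pool.Agent.H40.W.UW_UW z

end Pool.Agent.H30.W
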