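import Mathlib
import Pool.Agent.H30.Sp.RowG
import Pool.Agent.H30.W.Walk
import Pool.Agent.H40.W.FrmZ
import Pool.Agent.H81.W.CoreZ

set_option autoImplicit false
set_option linter.unusedSectionVars false
open Finset

/-! # The glued configuration of a row with a string, in any plane-like environment

`REnv` : random labels = the row, the string above the column `c0`, labels `EL` below and `EU` above the row.
`LGE` : the open labels when everything except the row and the string is frozen in the glued state `ω`.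
`rowZI_of` : the interface `RowZI` of chapter B from the geometry of `EL` and `EU`. `AG_em` : an extra tile
with the weights `1/2, 1/2` is a mean over two environments. -/

namespace Pool.Agent.H30.W

open Pool.Agent.H75.Perc Pool.Agent.H75.TwoArm Pool.Agent.Q1 Pool.Agent.H81.G1 Pool.Agent.H30.Mid
open Pool.Agent.H69.M6b (lbt lbt_inj lbt_odd lbt_diff Lay3 zr)
open Pool.Agent.Q1.M6b.Gl
open Pool.Agent.Q1.M6b.Gd (Iso Nr RowGeo sm)
open Pool.Agent.H30.Sp (WGb mem_WGb WGb_odd)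
open Pool.Agent.H40.W (lsZ tcZ FrameZ)
open Pool.Agent.H81.W (RowZI)

variable {N M : ℕ} {x0 y0 : ℤ} {c0 : Fin N} {X : Env} {W EL EU ω : Finset (ℤ × ℤ)}

/-! ### The layers -/

/-- **The environment of a row with a string.** -/
structure REnv (X : Env) (W : Finset (ℤ × ℤ)) (M : ℕ) (c0 : Fin N) (x0 y0 : ℤ)
    (EL EU : Finset (ℤ × ℤ)) : Prop where
  po : PO X W
  lay : LayE X N x0 y0 (lsZ M x0 y0 c0) EL EU

/-- labels of the row and of the string -/
noncomputable def RZ (N M : ℕ) (x0 y0 : ℤ) (c0 : Fin N) : Finset (ℤ × ℤ) :=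
  RS N x0 y0 ∪ XS (lsZ M x0 y0 c0)

lemma mem_RSx {x y : ℤ} : lbt x y ∈ RS N x0 y0 ↔ x0 ≤ x ∧ x < x0 + N ∧ y = y0 := by
  rw [mem_RS]
  constructor
  · rintro ⟨c, hc⟩
    have := c.2
    obtain ⟨h1, h2⟩ := lbt_inj hc
    omega
  · rintro ⟨h1, h2, h3⟩
    refine ⟨⟨(x - x0).toNat, by omega⟩, ?_⟩
    unfold rl
    rw [h3]
    congr 1
    simp only
    omega

lemma mem_XSls {x y : ℤ} : lbt x y ∈ XS (lsZ M x0 y0 c0) ↔
    x = x0 + (c0 : ℕ) ∧ y0 + 1 ≤ y ∧ y < y0 + 1 + M := by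
  unfold XS lsZ
  rw [mem_image]
  constructor
  · rintro ⟨i, -, hi⟩
    obtain ⟨h1, h2⟩ := lbt_inj hi
    have := i.2
    omega
  · rintro ⟨h1, h2, h3⟩
    refine ⟨⟨(y0 + M - y).toNat, by omega⟩, mem_univ _, ?_⟩
    rw [h1]
    congr 1
    simp only
    omega

lemma mem_RZ {x y : ℤ} : lbt x y ∈ RZ N M x0 y0 c0 ↔
    (x0 ≤ x ∧ x < x0 + N ∧ y = y0) ∨ (x = x0 + (c0 : ℕ) ∧ y0 + 1 ≤ y ∧ y < y0 + 1 + M) := by
  unfold RZ
  rw [mem_union, mem_RSx, mem_XSls]

/-- open labels after freezing also the layers in the glued state `ω` -/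
noncomputable def LGE (X : Env) (W : Finset (ℤ × ℤ)) (M : ℕ) (c0 : Fin N) (x0 y0 : ℤ)
    (EL EU ω : Finset (ℤ × ℤ)) : Finset (ℤ × ℤ) :=
  fW X W (RZ N M x0 y0 c0) (ug EL EU (1, -1) ω)

/-- the layers: rows of the labels -/
lemma layE_row (L3 : LayE X N x0 y0 (lsZ M x0 y0 c0) EL EU) : (∀ x y : ℤ, lbt x y ∈ EL → y < y0) ∧
    (∀ x y : ℤ, lbt x y ∈ EU → y0 < y) ∧ (∀ e ∈ EL ∪ EU, (e.1 + e.2) % 2 = 1) ∧
    (∀ e ∈ EL ∪ EU, e ∈ X.E) ∧ ∀ e ∈ EL ∪ EU, e ∉ RZ N M x0 y0 c0 := by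
  have h0 : ∀ e ∈ EL ∪ EU, e ∈ X.E ∧ e ∉ RZ N M x0 y0 c0 := fun e he => by
    rw [← L3.eq, mem_sdiff] at he; exact he
  have h1 : ∀ e ∈ EL ∪ EU, e ∈ X.E := fun e he => (h0 e he).1
  refine ⟨fun x y h => ?_, fun x y h => ?_, fun e he => X.odd e (h1 e he), h1, fun e he => (h0 e he).2⟩
  · have := L3.low _ h
    rw [lbt_diff] at this
    omega
  · have := L3.upp _ h
    rw [lbt_diff] at this
    omega

lemma gE_oddE (L3 : LayE X N x0 y0 (lsZ M x0 y0 c0) EL EU) {e : ℤ × ℤ}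
    (he : e ∈ gE EL EU (1, -1)) : (e.1 + e.2) % 2 = 1 := by
  obtain ⟨-, -, h, -⟩ := layE_row L3
  unfold gE at he
  rw [mem_union, mem_tr] at he
  rcases he with he | he
  · exact h e (mem_union_left _ he)
  · have := h _ (mem_union_right _ he)
    simp only [Prod.fst_sub, Prod.snd_sub] at this
    omega

/-- labels of the glued configuration -/
lemma mem_gEl {x y : ℤ} : lbt x y ∈ gE EL EU (1, -1) ↔ lbt x y ∈ EL ∨ lbt x (y + 1) ∈ EU := by
  unfold gE
  have e : lbt x y - (1, -1) = lbt x (y + 1) := by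
    have := lbt_add x (y + 1)
    rw [add_sub_cancel_right] at this
    rw [← this, add_sub_cancel_right]
  rw [mem_union, mem_tr, e]

variable {xa xb ya yb : ℤ}

/-- the random labels are not among the fixed open labels -/
theorem disj_WGbE (R : REnv X W M c0 x0 y0 EL EU) :
    Disjoint (gE EL EU (1, -1)) (WGb xa xb ya yb y0 W EU) := by
  obtain ⟨a1, a2, a3, a4, -⟩ := layE_row R.lay
  rw [disjoint_left]
  intro e he he'
  obtain ⟨x, y, rfl⟩ := exists_lbt (gE_oddE R.lay he)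
  rw [mem_gEl] at he
  rw [mem_WGb] at he'
  rcases he with he | he
  · have h2 := a1 _ _ he
    rcases he' with h3 | h3
    · exact disjoint_left.1 R.po.disj (a4 _ (mem_union_left _ he)) h3.1
    · omega
  · have h2 := a2 _ _ he
    rcases he' with h3 | h3
    · omega
    · exact h3.2.2 he

/-- outside of the row and of the string the step map is that of `LGE` -/
lemma outL_LGE (R : REnv X W M c0 x0 y0 EL EU) (ω : Finset (ℤ × ℤ)) :
    OutL (X.freeze (univ.image (lbE N x0 y0 (lsZ M x0 y0 c0))) (ug EL EU (1, -1) ω))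
      (LGE X W M c0 x0 y0 EL EU ω) := by
  have h := (R.po.freeze (univ.image (lbE N x0 y0 (lsZ M x0 y0 c0))) (ug EL EU (1, -1) ω)).outL
  unfold LGE RZ
  rw [← image_lbE]
  exact h

lemma freeze_E_RZ (R : REnv X W M c0 x0 y0 EL EU) (t : Finset (ℤ × ℤ)) :
    (X.freeze (univ.image (lbE N x0 y0 (lsZ M x0 y0 c0))) t).E =
      univ.image (lbE N x0 y0 (lsZ M x0 y0 c0)) := R.lay.fam.frE t

lemma mem_LGE (R : REnv X W M c0 x0 y0 EL EU) {e : ℤ × ℤ} : e ∈ LGE X W M c0 x0 y0 EL EU ω ↔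
    e ∈ W ∨ (e ∈ ω ∧ e ∈ EL) ∨ (e ∈ EU ∧ e + (1, -1) ∉ ω) := by
  have h := R.lay.eq
  unfold LGE fW RZ
  rw [h, mem_union, mem_inter, mem_ug]
  constructor
  · rintro (h2 | h2)
    · exact Or.inl h2
    · exact Or.inr h2.1
  · rintro (h2 | h2)
    · exact Or.inl h2
    · refine Or.inr ⟨h2, ?_⟩
      rcases h2 with h3 | h3
      · exact mem_union_left _ h3.2
      · exact mem_union_right _ h3.1

/-- outside the layers the labels are those of `W` -/
lemma mem_LGE_out (R : REnv X W M c0 x0 y0 EL EU) {e : ℤ × ℤ} (h1 : e ∉ EL) (h2 : e ∉ EU) :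
    e ∈ LGE X W M c0 x0 y0 EL EU ω ↔ e ∈ W := by
  rw [mem_LGE R]
  constructor
  · rintro (h3 | h3 | h3)
    · exact h3
    · exact absurd h3.2 h1
    · exact absurd h3.1 h2
  · exact Or.inl

/-- **The glued labels below the row.** -/
theorem glt_low (R : REnv X W M c0 x0 y0 EL EU) (hω : ω ⊆ gE EL EU (1, -1)) {u : ℤ × ℤ}
    (h1 : xa ≤ u.1) (h2 : u.1 < xb) (h3 : ya ≤ u.2) (h4 : u.2 < y0) :
    Glt false (LGE X W M c0 x0 y0 EL EU ω) (ω ∪ WGb xa xb ya yb y0 W EU) u := by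
  obtain ⟨b1, b2, b3, b4, -⟩ := layE_row R.lay
  obtain ⟨x, y⟩ := u
  simp only at h1 h2 h3 h4
  unfold Glt gl0
  simp only [Bool.false_eq_true, if_false]
  rw [mem_LGE R, mem_union, mem_WGb]
  have nU : lbt x y ∉ EU := fun hh => by have := b2 _ _ hh; omega
  constructor
  · rintro (h5 | h5 | h5)
    · have h6 := hω h5
      rw [mem_gEl] at h6
      rcases h6 with h6 | h6
      · exact Or.inr (Or.inl ⟨h5, h6⟩)
      · have := b2 _ _ h6; omega
    · exact Or.inl h5.1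
    · omega
  · rintro (h5 | h5 | h5)
    · exact Or.inr (Or.inl ⟨h5, by omega, by omega, by omega, by omega⟩)
    · exact Or.inl h5.1
    · exact absurd h5.1 nU

/-- **The glued labels above the row.** -/
theorem glt_upp (R : REnv X W M c0 x0 y0 EL EU) (hω : ω ⊆ gE EL EU (1, -1)) {u : ℤ × ℤ}
    (h1 : xa ≤ u.1) (h2 : u.1 < xb) (h3 : y0 + 1 ≤ u.2) (h4 : u.2 ≤ yb) :
    Glt true (LGE X W M c0 x0 y0 EL EU ω) (ω ∪ WGb xa xb ya yb y0 W EU) u := by
  obtain ⟨b1, b2, b3, b4, -⟩ := layE_row R.lay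
  obtain ⟨x, y⟩ := u
  simp only at h1 h2 h3 h4
  unfold Glt gl0
  simp only [if_true]
  have e1 : lbt x y + vg = lbt x (y - 1) := lbt_add x y
  have e2 : lbt x y + (1, -1) = lbt x (y - 1) := lbt_add x y
  rw [mem_LGE R, mem_union, e1, mem_WGb, sub_add_cancel, e2]
  have nL : lbt x y ∉ EL := fun hh => by have := b1 _ _ hh; omega
  constructor
  · rintro (h5 | h5 | h5)
    · have h6 := hω h5
      rw [mem_gEl, sub_add_cancel] at h6
      rcases h6 with h6 | h6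
      · have := b1 _ _ h6; omega
      · rintro (h7 | h7 | h7)
        · exact disjoint_left.1 R.po.disj (b4 _ (mem_union_right _ h6)) h7
        · exact nL h7.2
        · exact h7.2 h5
    · omega
    · rintro (h7 | h7 | h7)
      · exact h5.2.1 h7
      · exact nL h7.2
      · exact h5.2.2 h7.1
  · intro h5
    by_cases h6 : lbt x (y - 1) ∈ ω
    · exact Or.inl h6
    · refine Or.inr (Or.inr ⟨⟨by omega, by omega, by omega, by omega⟩, fun h7 => h5 (Or.inl h7),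
        fun h7 => h5 (Or.inr (Or.inr ⟨h7, h6⟩))⟩)

/-! ### The labels near the row -/

/-- the labels `B` are near the ends of the row, away from the row, or in the column `k` -/
def SepZ (B : Finset (ℤ × ℤ)) (N : ℕ) (x0 y0 k : ℤ) : Prop :=
  ∀ x y : ℤ, lbt x y ∈ B → 2 * (x - x0) ≤ |y - y0| + 2 ∨ 2 * (x0 + N - x) ≤ |y - y0| + 2 ∨ x = x0 + k

/-- **`RowGeo` of the glued row.** -/
theorem rowGeoZ_rect {E B : Finset (ℤ × ℤ)} {N k : ℕ} {x0 y0 ya yb K0 : ℤ} (hk1 : 1 ≤ k)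
    (hkN : k + 1 ≤ N) (hK : 6 ≤ K0) (hya : (N : ℤ) < K0 * (y0 - ya + 1))
    (hyb : (N : ℤ) < K0 * (yb - y0 + 1))
    (hE : ∀ x y : ℤ, x0 ≤ x → x < x0 + N → ya ≤ y → y < yb → lbt x y ∉ B → lbt x y ∈ E)
    (hB : SepZ B N x0 y0 k) :
    RowGeo E (fun j => sm true y0 (x0 + k - y0 + 1 + j)) K0 k (N - k) := by
  have h2 : ((N - k : ℕ) : ℤ) = N - k := by omega
  refine ⟨iso_sm _ _, ?_, ?_⟩
  · intro j d hj h3 h4 e he hN
    obtain ⟨x, y, rfl⟩ := exists_lbt he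
    rw [h2] at h4
    unfold Nr sm lbt at hN
    simp only [if_true] at hN
    have n1 := abs_le.1 hN.1
    have n2 := abs_le.1 hN.2
    have hd0 : 0 ≤ d := by omega
    have hd : 6 * d ≤ K0 * d := by nlinarith
    have hd1 : 1 ≤ d := by omega
    have hda : d < y0 - ya + 1 := by
      by_contra h
      have : K0 * (y0 - ya + 1) ≤ K0 * d := by nlinarith
      omega
    have hdb : d < yb - y0 + 1 := by
      by_contra h
      have : K0 * (yb - y0 + 1) ≤ K0 * d := by nlinarith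
      omega
    refine hE x y (by omega) (by omega) (by omega) (by omega) ?_
    intro hb
    have hs := hB x y hb
    have hyy : |y - y0| ≤ d + 1 := abs_le.2 ⟨by omega, by omega⟩
    omega
  · intro j d hj h3 h4 e he hN
    obtain ⟨x, y, rfl⟩ := exists_lbt he
    unfold Nr sm lbt at hN
    simp only [if_true] at hN
    have n1 := abs_le.1 hN.1
    have n2 := abs_le.1 hN.2
    have hd0 : 0 ≤ d := by omega
    have hd : 6 * d ≤ K0 * d := by nlinarith
    have hd1 : 1 ≤ d := by omega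
    have hda : d < y0 - ya + 1 := by
      by_contra h
      have : K0 * (y0 - ya + 1) ≤ K0 * d := by nlinarith
      omega
    have hdb : d < yb - y0 + 1 := by
      by_contra h
      have : K0 * (yb - y0 + 1) ≤ K0 * d := by nlinarith
      omega
    refine hE x y (by omega) (by omega) (by omega) (by omega) ?_
    intro hb
    have hs := hB x y hb
    have hyy : |y - y0| ≤ d + 1 := abs_le.2 ⟨by omega, by omega⟩
    omega

/-- the glued random labels: `EL` = labels below, `EU` = labels above the row, without `BL`, `BU` -/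
theorem rowGeoZ_glued {EL EU BL BU : Finset (ℤ × ℤ)} {N k : ℕ} {x0 y0 ya yb K0 : ℤ} (hk1 : 1 ≤ k)
    (hkN : k + 1 ≤ N) (hK : 6 ≤ K0) (hya : (N : ℤ) < K0 * (y0 - ya + 1))
    (hyb : (N : ℤ) < K0 * (yb - y0))
    (hL : ∀ x y : ℤ, x0 ≤ x → x < x0 + N → ya ≤ y → y < y0 → lbt x y ∉ BL → lbt x y ∈ EL)
    (hU : ∀ x y : ℤ, x0 ≤ x → x < x0 + N → y0 < y → y < yb → lbt x y ∉ BU → lbt x y ∈ EU)
    (hBL : SepZ BL N x0 y0 k) (hBU : SepZ BU N x0 (y0 + 1) k) :
    RowGeo (gE EL EU (1, -1)) (fun j => sm true y0 (x0 + k - y0 + 1 + j)) K0 k (N - k) := by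
  have e : ∀ x y : ℤ, lbt x y - (1, -1) = lbt x (y + 1) := by
    intro x y
    have := lbt_add x (y + 1)
    rw [add_sub_cancel_right] at this
    rw [← this, add_sub_cancel_right]
  refine rowGeoZ_rect (B := BL ∪ BU.map (tr (1, -1))) (ya := ya) (yb := yb - 1) hk1 hkN hK hya
    (by rw [show yb - 1 - y0 + 1 = yb - y0 by ring]; exact hyb) ?_ ?_
  · intro x y h1 h2 h3 h4 h5
    rw [mem_union, not_or, mem_tr, e] at h5
    rw [mem_gEl]
    rcases lt_or_ge y y0 with h6 | h6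
    · exact Or.inl (hL x y h1 h2 h3 h6 h5.1)
    · exact Or.inr (hU x (y + 1) h1 h2 (by omega) (by omega) h5.2)
  · intro x y h
    rw [mem_union, mem_tr, e] at h
    rcases h with h | h
    · exact hBL x y h
    · have := hBU x (y + 1) h
      rwa [show y + 1 - (y0 + 1) = y - y0 by ring] at this

/-- **The labels near a column of the row are random.** -/
theorem near_rowZ {EL EU BL BU : Finset (ℤ × ℤ)} {N k : ℕ} {x0 y0 ya yb : ℤ}
    (hL : ∀ x y : ℤ, x0 ≤ x → x < x0 + N → ya ≤ y → y < y0 → lbt x y ∉ BL → lbt x y ∈ EL)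
    (hU : ∀ x y : ℤ, x0 ≤ x → x < x0 + N → y0 < y → y < yb → lbt x y ∉ BU → lbt x y ∈ EU)
    (hBL : SepZ BL N x0 y0 k) (hBU : SepZ BU N x0 (y0 + 1) k) {c : Fin N} {m : ℤ} (hM1 : 1 ≤ m)
    (hR1 : m ≤ y0 - ya) (hR2 : m ≤ yb - y0 - 1)
    (key : ∀ d : ℤ, (0 ≤ d ∧ d ≤ 3) ∨ ((N : ℤ) - 4 ≤ d ∧ d ≤ N) ∨ ((k : ℤ) - 1 ≤ d ∧ d ≤ k + 1) →
      m ≤ |((c : ℕ) : ℤ) - d|)
    {e : ℤ × ℤ} (ho : (e.1 + e.2) % 2 = 1)
    (h1 : |e.1 - (sm true y0 (x0 - y0 + 1 + (c : ℕ))).1| ≤ m)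
    (h2 : |e.2 - (sm true y0 (x0 - y0 + 1 + (c : ℕ))).2| ≤ m) : e ∈ gE EL EU (1, -1) := by
  have hc := c.2
  have e1 : (sm true y0 (x0 - y0 + 1 + (c : ℕ))).1 = x0 - y0 + 1 + (c : ℕ) := by
    unfold sm; simp
  have e2 : (sm true y0 (x0 - y0 + 1 + (c : ℕ))).2 = x0 + y0 + 1 + (c : ℕ) := by
    unfold sm; simp; ring
  rw [e1] at h1
  rw [e2] at h2
  rw [abs_le] at h1 h2
  have hcl : 3 < ((c : ℕ) : ℤ) := by
    by_contra hh
    have := key (c : ℕ) (Or.inl ⟨by omega, by omega⟩)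
    rw [sub_self, abs_zero] at this
    omega
  have hcr : ((c : ℕ) : ℤ) < N - 4 := by
    by_contra hh
    have := key (c : ℕ) (Or.inr (Or.inl ⟨by omega, by omega⟩))
    rw [sub_self, abs_zero] at this
    omega
  have k1 := key 3 (Or.inl ⟨by omega, by omega⟩)
  have k2 := key (N - 4) (Or.inr (Or.inl ⟨by omega, by omega⟩))
  rw [abs_of_nonneg (by omega)] at k1
  rw [abs_of_nonpos (by omega)] at k2
  have k3 : ∀ x : ℤ, x = x0 + k → m < |x - x0 - ((c : ℕ) : ℤ)| := by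
    intro x hx
    have k4 := key (k - 1) (Or.inr (Or.inr ⟨by omega, by omega⟩))
    have k5 := key (k + 1) (Or.inr (Or.inr ⟨by omega, by omega⟩))
    have k6 := key k (Or.inr (Or.inr ⟨by omega, by omega⟩))
    rw [le_abs] at k4 k5 k6
    rw [lt_abs]
    omega
  obtain ⟨x, y, rfl⟩ := exists_lbt ho
  have k4 := k3 x
  rw [lt_abs] at k4
  unfold lbt at h1 h2
  simp only at h1 h2
  rw [mem_gEl]
  rcases lt_or_ge y y0 with hy | hy
  · left
    refine hL x y (by omega) (by omega) (by omega) hy (fun hb => ?_)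
    rcases hBL x y hb with h3 | h3 | h3
    · rw [abs_of_neg (by omega)] at h3; omega
    · rw [abs_of_neg (by omega)] at h3; omega
    · have := k4 h3; omega
  · right
    refine hU x (y + 1) (by omega) (by omega) (by omega) (by omega) (fun hb => ?_)
    rcases hBU x (y + 1) hb with h3 | h3 | h3
    · rw [abs_of_nonneg (by omega)] at h3; omega
    · rw [abs_of_nonneg (by omega)] at h3; omega
    · have := k4 h3; omega

/-- special columns: the ends of the row and the column `k` -/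
noncomputable def SwZ (N k : ℕ) (x0 y0 : ℤ) : Finset ℤ :=
  ((({0, 1, 2, 3} : Finset ℤ) ∪ {(N : ℤ) - 4, (N : ℤ) - 3, (N : ℤ) - 2, (N : ℤ) - 1, (N : ℤ)}) ∪
    {(k : ℤ) - 1, (k : ℤ), (k : ℤ) + 1}).image fun c => x0 - y0 + 1 + c

lemma card_SwZ (N k : ℕ) (x0 y0 : ℤ) : (SwZ N k x0 y0).card ≤ 12 := by
  unfold SwZ
  refine card_image_le.trans ((card_union_le _ _).trans ?_)
  have h0 := card_union_le ({0, 1, 2, 3} : Finset ℤ)
    {(N : ℤ) - 4, (N : ℤ) - 3, (N : ℤ) - 2, (N : ℤ) - 1, (N : ℤ)}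
  have h1 : ({0, 1, 2, 3} : Finset ℤ).card ≤ 4 := by decide
  have h2 : ({(N : ℤ) - 4, (N : ℤ) - 3, (N : ℤ) - 2, (N : ℤ) - 1, (N : ℤ)} : Finset ℤ).card ≤ 5 := by
    refine (card_insert_le _ _).trans (Nat.succ_le_succ ?_)
    refine (card_insert_le _ _).trans (Nat.succ_le_succ ?_)
    refine (card_insert_le _ _).trans (Nat.succ_le_succ ?_)
    exact card_le_two
  have h3 : ({(k : ℤ) - 1, (k : ℤ), (k : ℤ) + 1} : Finset ℤ).card ≤ 3 := card_le_three
  omega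

lemma mem_SwZ {N k : ℕ} {x0 y0 d : ℤ} (hc : (0 ≤ d ∧ d ≤ 3) ∨ ((N : ℤ) - 4 ≤ d ∧ d ≤ N) ∨
    ((k : ℤ) - 1 ≤ d ∧ d ≤ k + 1)) : x0 - y0 + 1 + d ∈ SwZ N k x0 y0 := by
  unfold SwZ
  refine mem_image.2 ⟨d, ?_, rfl⟩
  rw [mem_union, mem_union]
  simp only [mem_insert, mem_singleton]
  omega

/-- **The geometry of the row for chapter B.** -/
theorem rowZI_of {EL EU BL BU : Finset (ℤ × ℤ)} {W' : Bool → Finset (ℤ × ℤ)} {N k R0 : ℕ}
    {x0 y0 ya yb K0 : ℤ} (hk1 : 1 ≤ k) (hkN : k + 1 ≤ N) (hK : 6 ≤ K0)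
    (hya : (N : ℤ) < K0 * (y0 - ya + 1)) (hyb : (N : ℤ) < K0 * (yb - y0))
    (hL : ∀ x y : ℤ, x0 ≤ x → x < x0 + N → ya ≤ y → y < y0 → lbt x y ∉ BL → lbt x y ∈ EL)
    (hU : ∀ x y : ℤ, x0 ≤ x → x < x0 + N → y0 < y → y < yb → lbt x y ∉ BU → lbt x y ∈ EU)
    (hBL : SepZ BL N x0 y0 k) (hBU : SepZ BU N x0 (y0 + 1) k)
    (hR1 : (R0 : ℤ) ≤ y0 - ya) (hR2 : (R0 : ℤ) ≤ yb - y0 - 1)
    (hd : ∀ κ, Disjoint (gE EL EU (1, -1)) (W' κ)) :
    RowZI N x0 y0 k EL EU W' K0 12 R0 (SwZ N k x0 y0) where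
  geo := rowGeoZ_glued hk1 hkN hK hya hyb hL hU hBL hBU
  disj := hd
  near Sp hSp c m hM1 hM e ho h1 h2 := by
    obtain ⟨hMR, hMs⟩ := hM
    refine near_rowZ hL hU hBL hBU hM1 (by omega) (by omega) ?_ ho h1 h2
    intro d hd
    have h3 := hMs _ (hSp (mem_SwZ (x0 := x0) (y0 := y0) hd))
    have e3 : (sc x0 y0 c).1 = x0 - y0 + 1 + ((c : ℕ) : ℤ) := by
      unfold sc sm; simp
    rw [e3, show x0 - y0 + 1 + ((c : ℕ) : ℤ) - (x0 - y0 + 1 + d) = ((c : ℕ) : ℤ) - d by ring] at h3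
    exact h3
  sw := card_SwZ _ _ _ _
  pt t h1 h2 := by
    have := mem_SwZ (N := N) (k := k) (x0 := x0) (y0 := y0) (d := k + t)
      (Or.inr (Or.inr ⟨by omega, by omega⟩))
    rwa [← add_assoc] at this
  pl := by
    have := mem_SwZ (N := N) (k := k) (x0 := x0) (y0 := y0) (d := 0) (Or.inl ⟨by omega, by omega⟩)
    rwa [add_zero] at this
  pr := by
    have := mem_SwZ (N := N) (k := k) (x0 := x0) (y0 := y0) (d := N - 1)
      (Or.inr (Or.inl ⟨by omega, by omega⟩))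
    rwa [show x0 - y0 + 1 + ((N : ℤ) - 1) = x0 - y0 + N by ring] at this

end Pool.Agent.H30.W
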