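import Mathlib
import Pool.Agent.H30.W.RowGE

set_option autoImplicit false
set_option linter.unusedSectionVars false
open Finset

/-! # One more tile with the weights `1/2, 1/2`

`fz1 X e κ` : the label `e` frozen in the state `κ`. `AG_em` : the amplitude with the extra tile `e` is the
mean of the amplitudes of `fz1 X e true` and `fz1 X e false`. `renv_em` : the environment of the row with
a string after freezing the extra tile. -/

namespace Pool.Agent.H30.W

open Pool.Agent.H75.Perc Pool.Agent.H75.TwoArm Pool.Agent.Q1 Pool.Agent.H81.G1 Pool.Agent.H30.Mid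
open Pool.Agent.H69.M6b (lbt lbt_inj lbt_odd lbt_diff)
open Pool.Agent.Q1.M6b.Gl
open Pool.Agent.H40.W (lsZ)

/-- state of one label -/
noncomputable def st1 (e : ℤ × ℤ) (κ : Bool) : Finset (ℤ × ℤ) := if κ then {e} else ∅

lemma mem_st1 {e e' : ℤ × ℤ} {κ : Bool} : e' ∈ st1 e κ ↔ κ = true ∧ e' = e := by
  unfold st1
  cases κ <;> simp

/-- one label frozen -/
noncomputable def fz1 (X : Env) (e : ℤ × ℤ) (κ : Bool) : Env := X.freeze (X.E.erase e) (st1 e κ)

section
variable {ι κ' : Type*} [Fintype ι] [DecidableEq ι] [Fintype κ'] [DecidableEq κ'] {X : Env}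
  {lb : ι → ℤ × ℤ} {e : ℤ × ℤ}

lemma fz1_E (X : Env) (e : ℤ × ℤ) (κ : Bool) : (fz1 X e κ).E = X.E.erase e := by
  unfold fz1
  rw [Env.freeze_E]
  exact inter_eq_right.2 (erase_subset _ _)

lemma Fam.fz1 (h : Fam X lb) (he : e ∉ univ.image lb) (κ : Bool) : Fam (fz1 X e κ) lb := by
  refine ⟨h.inj, fun i => ?_⟩
  rw [fz1_E, mem_erase]
  exact ⟨fun h1 => he (h1 ▸ mem_image_of_mem _ (mem_univ i)), h.mem i⟩

lemma AG_fz1 (h : Fam X lb) (he : e ∉ univ.image lb) (heX : e ∈ X.E) (κ : Bool) (ct : ℤ × ℤ)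
    (a b : ι → ℂ) (ω : Finset (ℤ × ℤ)) :
    AG (fz1 X e κ) lb ct a b ω = AG X lb ct a b ((ω \ {e}) ∪ st1 e κ) := by
  rw [AG_eq (h.fz1 he κ), AG_eq h]
  refine sum_congr rfl fun s _ => ?_
  have h1 := osn_sub (h.tiles ω) s
  rw [h.frE] at h1
  have h2 : osn lb (gp lb) s ∪ ω ∩ ((fz1 X e κ).E \ univ.image lb) ⊆ X.E ∩ X.E.erase e := by
    rw [fz1_E]
    intro x hx
    rw [inter_eq_right.2 (erase_subset _ _)]
    rcases mem_union.1 hx with h3 | h3
    · have h4 := h1 h3
      exact mem_erase.2 ⟨fun h5 => he (h5 ▸ h4), h.sub h4⟩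
    · exact (mem_sdiff.1 (mem_inter.1 h3).2).1
  have h3 := Env.freeze_incO (X := X) (E' := X.E.erase e) (ω1 := st1 e κ) h2 ct
  have h4 : (fz1 X e κ).incO (osn lb (gp lb) s ∪ ω ∩ ((fz1 X e κ).E \ univ.image lb)) ct = _ := h3
  rw [h4]
  congr 2
  rw [fz1_E]
  ext x
  have k1 := @h1 x
  have k2 : x ∈ univ.image lb → x ∈ X.E := fun hh => h.sub hh
  have k3 : x = e → x ∉ univ.image lb := fun hh => hh ▸ he
  have k4 : x = e → x ∈ X.E := fun hh => hh ▸ heX
  simp only [mem_union, mem_inter, mem_sdiff, mem_erase, mem_singleton, mem_st1, not_and]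
  tauto

/-- reindexing of the tiles -/
lemma AG_equiv (g : κ' ≃ ι) (ct : ℤ × ℤ) (a b : ι → ℂ) (h : Fam X lb) (ω : Finset (ℤ × ℤ)) :
    AG X (fun j => lb (g j)) ct (fun j => a (g j)) (fun j => b (g j)) ω = AG X lb ct a b ω := by
  have h' : Fam X (fun j => lb (g j)) := ⟨fun i j hij => g.injective (h.inj hij), fun i => h.mem _⟩
  rw [AG_eq h, AG_eq h']
  have him : univ.image (fun j => lb (g j)) = univ.image lb := by
    ext x
    rw [mem_image, mem_image]
    constructor
    · rintro ⟨j, -, rfl⟩; exact ⟨g j, mem_univ _, rfl⟩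
    · rintro ⟨i, -, rfl⟩; exact ⟨g.symm i, mem_univ _, by rw [Equiv.apply_symm_apply]⟩
  rw [him, ← (Equiv.arrowCongr g (Equiv.refl Bool)).sum_comp]
  refine sum_congr rfl fun s _ => ?_
  have e1 : ∀ i, (Equiv.arrowCongr g (Equiv.refl Bool)) s i = s (g.symm i) := fun i => rfl
  have e2 : osn (fun j => lb (g j)) (gp fun j => lb (g j)) s =
      osn lb (gp lb) ((Equiv.arrowCongr g (Equiv.refl Bool)) s) := by
    ext x
    unfold osn
    rw [mem_image, mem_image]
    constructor
    · rintro ⟨j, hj, rfl⟩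
      refine ⟨g j, mem_filter.2 ⟨mem_univ _, ?_⟩, rfl⟩
      rw [e1, Equiv.symm_apply_apply]
      exact (mem_filter.1 hj).2
    · rintro ⟨i, hi, rfl⟩
      refine ⟨g.symm i, mem_filter.2 ⟨mem_univ _, ?_⟩, by rw [Equiv.apply_symm_apply]⟩
      have h1 := (mem_filter.1 hi).2
      rw [e1] at h1
      unfold gp at h1 ⊢
      simp only [Equiv.apply_symm_apply]
      exact h1
  rw [e2]
  congr 1
  rw [← g.prod_comp]
  refine prod_congr rfl fun j _ => ?_
  rw [e1, Equiv.symm_apply_apply]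

/-- **An extra tile with the weights `1/2, 1/2`.** -/
theorem AG_em (h : Fam X (Sum.elim lb (fun _ : Unit => e))) (ct : ℤ × ℤ) (a b : ι → ℂ)
    (ω : Finset (ℤ × ℤ)) :
    AG X (Sum.elim lb (fun _ : Unit => e)) ct (Sum.elim a fun _ => 1 / 2) (Sum.elim b fun _ => 1 / 2) ω =
      1 / 2 * (AG (fz1 X e true) lb ct a b ω + AG (fz1 X e false) lb ct a b ω) := by
  have he : e ∉ univ.image lb := by
    intro h1
    exact disjoint_left.1 h.disj h1 (mem_image_of_mem _ (mem_univ ()))
  have heX : e ∈ X.E := h.mem (.inr ())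
  have h1 := Ec_AG h (fun _ => (1 / 2 : ℂ)) ct a b ω
  have e1 : (Sum.elim a (wA (fun _ : Unit => e) (gp fun _ : Unit => e) fun _ => (1 / 2 : ℂ))) =
      Sum.elim a fun _ => 1 / 2 := by
    congr 1
    funext i
    unfold wA
    split_ifs <;> norm_num
  have e2 : (Sum.elim b (wB (fun _ : Unit => e) (gp fun _ : Unit => e) fun _ => (1 / 2 : ℂ))) =
      Sum.elim b fun _ => 1 / 2 := by
    congr 1
    funext i
    unfold wB
    split_ifs <;> norm_num
  rw [e1, e2] at h1
  rw [← h1, AG_fz1 h.inl he heX, AG_fz1 h.inl he heX]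
  have e3 : univ.image (fun _ : Unit => e) = {e} := by
    ext x; simp [eq_comm]
  rw [e3]
  unfold Ec
  rw [show ({e} : Finset (ℤ × ℤ)).powerset = {∅, {e}} from by
    ext x; rw [mem_powerset, subset_singleton_iff, mem_insert, mem_singleton]]
  rw [sum_pair (by
    intro h2
    have := congrArg Finset.card h2
    simp at this)]
  unfold wtc
  simp only [sdiff_empty, Finset.sdiff_self, prod_singleton, prod_empty]
  have e4 : st1 e true = {e} := rfl
  have e5 : st1 e false = ∅ := rfl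
  rw [e4, e5]
  ring

end

variable {N M : ℕ} {x0 y0 : ℤ} {c0 : Fin N} {X : Env} {W EL EU : Finset (ℤ × ℤ)} {e : ℤ × ℤ}

/-- the string and one more label -/
def lsE (M : ℕ) (x0 y0 : ℤ) (c0 : Fin N) (e : ℤ × ℤ) : Fin M ⊕ Unit → ℤ × ℤ :=
  Sum.elim (lsZ M x0 y0 c0) (fun _ => e)

/-- **The environment after freezing the extra tile.** -/
theorem renv_em (hX : PO X W) (L : LayE X N x0 y0 (lsE M x0 y0 c0 e) EL EU) (κ : Bool) :
    REnv (fz1 X e κ) (W ∪ st1 e κ) M c0 x0 y0 EL EU := by
  have heX : e ∈ X.E := L.fam.mem (.inr (.inr ()))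
  have him : XS (lsE M x0 y0 c0 e) = XS (lsZ M x0 y0 c0) ∪ {e} := by
    unfold XS lsE
    rw [image_elim]
    have h3 : univ.image (fun _ : Unit => e) = {e} := by
      ext x; simp [eq_comm]
    rw [h3]
  have he1 : e ∉ RS N x0 y0 ∪ XS (lsZ M x0 y0 c0) := by
    intro h
    have h1 := L.fam.inj
    rcases mem_union.1 h with h2 | h2
    · obtain ⟨c, hc⟩ := mem_RS.1 h2
      have := h1 (a₁ := .inl c) (a₂ := .inr (.inr ())) hc
      simp at this
    · obtain ⟨i, -, hi⟩ := mem_image.1 h2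
      have := h1 (a₁ := .inr (.inl i)) (a₂ := .inr (.inr ())) hi
      simp at this
  refine ⟨?_, ?_⟩
  · have h1 := hX.freeze (X.E.erase e) (st1 e κ)
    have h2 : fW X W (X.E.erase e) (st1 e κ) = W ∪ st1 e κ := by
      unfold fW
      congr 1
      rw [inter_eq_left]
      intro x hx
      rw [mem_st1] at hx
      rw [hx.2, mem_sdiff, mem_erase]
      exact ⟨heX, fun h => h.1 rfl⟩
    rw [h2] at h1
    exact h1
  · refine ⟨⟨?_, ?_⟩, ?_, L.low, L.upp⟩
    · intro i j hij
      have h1 := L.fam.inj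
      rcases i with i | i <;> rcases j with j | j
      · have := h1 (a₁ := .inl i) (a₂ := .inl j) hij
        simpa using this
      · have := h1 (a₁ := .inl i) (a₂ := .inr (.inl j)) hij
        simp at this
      · have := h1 (a₁ := .inr (.inl i)) (a₂ := .inl j) hij
        simp at this
      · have := h1 (a₁ := .inr (.inl i)) (a₂ := .inr (.inl j)) hij
        simpa using this
    · intro i
      rw [fz1_E, mem_erase]
      constructor
      · rintro rfl
        apply he1
        rw [← image_lbE (N := N) (x0 := x0) (y0 := y0) (l2 := lsZ M x0 y0 c0)]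
        exact mem_image_of_mem _ (mem_univ _)
      · rcases i with i | i
        · exact L.fam.mem (.inl i)
        · exact L.fam.mem (.inr (.inl i))
    · rw [← L.eq, him, fz1_E]
      ext x
      simp only [mem_sdiff, mem_erase, mem_union, mem_singleton]
      tauto

end Pool.Agent.H30.W
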