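import Mathlib
import Pool.Agent.H30.W.EmZ
import Pool.Agent.H25.W.Track
import Pool.Agent.H76.W.TieE

set_option autoImplicit false
set_option linter.unusedSectionVars false
open Finset

/-! # A row with a string in a window with a horizontal line

`Slit D` : the line is at the height `y0 + 1` on the component `[x1, x2)`, on the floor elsewhere; string in the
column `xs` above the row `y0`, `e = 1` : it contains the tile of the exit in the ceiling; free height `r` below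
and above the row. `SlitEnv` : an environment of the window (tied or not). `XFz` : all labels frozen in the state `t`, except the row, the string, the tile `em` and
the labels `ELz`, `EUz` near the row, outside of `B`. `SlitEnv.lay`, `SlitEnv.rowZI` : the interface of
chapter B. -/

namespace Pool.Agent.H30.W

open Pool.Agent.H75.Perc Pool.Agent.H75.TwoArm Pool.Agent.Q1 Pool.Agent.H81.G1 Pool.Agent.H30.Mid
open Pool.Agent.H69.M6b (lbt lbt_inj lbt_odd lbt_diff zr)
open Pool.Agent.Q1.M6b.Gl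
open Pool.Agent.H33.Q1 (lt tt lt_inj tt_lt lt_odd)
open Pool.Agent.H54.W Pool.Agent.H54.W.HWin
open Pool.Agent.H25.W (hseg HComp hpos_seg)
open Pool.Agent.H76.W (OutH ETH WTH XTH CPH)
open Pool.Agent.H42.Sp (Ix kt rt OTp)
open Pool.Agent.H30.Sp (WGb mem_WGb WGb_odd)
open Pool.Agent.H40.W (lsZ)
open Pool.Agent.H81.W (RowZI)

/-- **A row with a string.** `e = 1` : the string contains the tile `(xs, w)` of the ceiling. -/
structure Slit (D : HWin) where
  x1 : ℤ
  x2 : ℤ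
  xs : ℤ
  y0 : ℤ
  r : ℤ
  e : ℕ
  e1 : e ≤ 1
  comp : HComp D (y0 + 1) x1 x2
  s1 : x1 < xs
  s2 : xs + 1 < x2
  r2 : 2 ≤ r
  fl : ∀ x, x1 ≤ x → x < x2 → D.a x + r ≤ y0 + 1
  up : y0 + r < D.w
  /-- colour of the ceiling to the left of the exit -/
  kl : Bool
  /-- colour of the ceiling to the right of the exit -/
  kr : Bool
  cl : ∀ x, D.p ≤ x → x < xs → D.cc x = kl
  cr : ∀ x, xs < x → x < D.q → D.cc x = kr
  par : e = 0 → (((xs + D.w) % 2 = 0 ↔ kl = true) ∧ ((xs + D.w) % 2 = 1 ↔ kr = true))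

namespace Slit

variable {D : HWin} (S : Slit D)

/-- number of columns of the row -/
def N : ℕ := (S.x2 - S.x1).toNat

/-- number of tiles of the string -/
def M : ℕ := (D.w - 1 - S.y0).toNat + S.e

lemma N_eq : (S.N : ℤ) = S.x2 - S.x1 := by
  have := S.s1; have := S.s2
  unfold N
  omega

lemma M_eq : (S.M : ℤ) = D.w - 1 - S.y0 + S.e := by
  have := S.up; have := S.r2
  unfold M
  omega

/-- number of the column of the string -/
def k : ℕ := (S.xs - S.x1).toNat

lemma k_eq : (S.k : ℤ) = S.xs - S.x1 := by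
  have := S.s1
  unfold k
  omega

/-- the tile of the string in the ceiling -/
def Xt (x y : ℤ) : Prop := S.e = 1 ∧ x = S.xs ∧ y = D.w

/-- the column of the string -/
def c0 : Fin S.N := ⟨S.k, by
  have := S.N_eq; have := S.k_eq; have := S.s2
  omega⟩

lemma c0_val : ((S.c0 : Fin S.N) : ℕ) = S.k := rfl

lemma xs_eq : S.x1 + ((S.c0 : Fin S.N) : ℕ) = S.xs := by
  have := S.k_eq
  have := S.c0_val
  omega

/-- the position of the line -/
def τ : ℤ → ℤ := hseg D (S.y0 + 1) S.x1 S.x2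

lemma pos : HPos D S.τ := hpos_seg (by have := S.up; have := S.r2; omega) S.comp

lemma p_le : D.p ≤ S.x1 := S.comp.y0

lemma le_q : S.x2 ≤ D.q := S.comp.yh

lemma τ_in {x : ℤ} (h1 : S.x1 ≤ x) (h2 : x < S.x2) : S.τ x = S.y0 + 1 := by
  unfold τ hseg
  rw [if_pos ⟨h1, h2⟩]

lemma τ_out {x : ℤ} (h : ¬ (S.x1 ≤ x ∧ x < S.x2)) : S.τ x = D.a x := by
  unfold τ hseg
  rw [if_neg h]

lemma lft (h : D.p < S.x1) : S.y0 + 1 < D.a (S.x1 - 1) := S.comp.bot h

lemma rgt (h : S.x2 < D.q) : S.y0 + 1 < D.a S.x2 := S.comp.top h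

end Slit

variable {D : HWin} {S : Slit D} {X : Env} {W B t : Finset (ℤ × ℤ)} {em : ℤ × ℤ} {x y : ℤ}

/-- random labels below the row -/
noncomputable def ELz (S : Slit D) (B : Finset (ℤ × ℤ)) : Finset (ℤ × ℤ) :=
  (D.TS fun x y => S.x1 ≤ x ∧ x < S.x2 ∧ S.y0 - S.r ≤ y ∧ y < S.y0) \ B

/-- random labels above the row -/
noncomputable def EUz (S : Slit D) (B : Finset (ℤ × ℤ)) : Finset (ℤ × ℤ) :=
  (D.TS fun x y => S.x1 ≤ x ∧ x < S.x2 ∧ x ≠ S.xs ∧ S.y0 < y ∧ y ≤ S.y0 + S.r) \ B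

lemma mem_ELz : lbt x y ∈ ELz S B ↔
    (S.x1 ≤ x ∧ x < S.x2 ∧ S.y0 - S.r ≤ y ∧ y < S.y0) ∧ lbt x y ∉ B := by
  unfold ELz
  rw [mem_sdiff, lbt_lt, HWin.mem_TS]
  constructor
  · rintro ⟨h1, h2⟩; exact ⟨h1.2, h2⟩
  · rintro ⟨h1, h2⟩
    refine ⟨⟨?_, h1⟩, h2⟩
    have h3 := S.p_le
    have h4 := S.le_q
    have h5 := S.fl x h1.1 h1.2.1
    have h6 := D.hlo x (by omega) (by omega)
    have h7 := S.up
    have h8 := S.r2
    unfold HWin.InZ
    omega

lemma mem_EUz : lbt x y ∈ EUz S B ↔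
    (S.x1 ≤ x ∧ x < S.x2 ∧ x ≠ S.xs ∧ S.y0 < y ∧ y ≤ S.y0 + S.r) ∧ lbt x y ∉ B := by
  unfold EUz
  rw [mem_sdiff, lbt_lt, HWin.mem_TS]
  constructor
  · rintro ⟨h1, h2⟩; exact ⟨h1.2, h2⟩
  · rintro ⟨h1, h2⟩
    refine ⟨⟨?_, h1⟩, h2⟩
    have h3 := S.p_le
    have h4 := S.le_q
    have h5 := S.fl x h1.1 h1.2.1
    have h6 := D.hlo x (by omega) (by omega)
    have h7 := S.up
    have h8 := S.r2
    unfold HWin.InZ
    omega

lemma odd_ELz {e : ℤ × ℤ} (he : e ∈ ELz S B) : (e.1 + e.2) % 2 = 1 := D.odd_TS (mem_sdiff.1 he).1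

lemma odd_EUz {e : ℤ × ℤ} (he : e ∈ EUz S B) : (e.1 + e.2) % 2 = 1 := D.odd_TS (mem_sdiff.1 he).1

/-- **An environment of the window** with the line at the position of the slit (tied or not); `em` : the tile at
the target. -/
structure SlitEnv (S : Slit D) (X : Env) (W B : Finset (ℤ × ℤ)) (em : ℤ × ℤ) : Prop where
  po : PO X W
  low : ∀ x y, S.x1 ≤ x → x < S.x2 → S.y0 - S.r ≤ y → y < S.y0 → lbt x y ∈ X.E
  upp : ∀ x y, S.x1 ≤ x → x < S.x2 → S.y0 < y → y < D.w → lbt x y ∈ X.E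
  row : ∀ x, S.x1 ≤ x → x < S.x2 → lbt x S.y0 ∈ X.E
  ex : S.e = 1 → lbt S.xs D.w ∈ X.E
  ext : ∀ x y c, OutH D S.τ x y c → ¬ S.Xt x y → lbt x y ∉ X.E ∧ (lbt x y ∈ W ↔ c = true)
  root : ∀ x y, plab X.c0 = lbt x y → ¬ D.InZ x y
  emE : em ∈ X.E
  emR : em ∉ RZ S.N S.M S.x1 S.y0 S.c0
  emB : em ∉ ELz S B ∪ EUz S B

/-- the extra tiles: the string and the tile at the target -/
noncomputable abbrev l2z (S : Slit D) (em : ℤ × ℤ) : Fin S.M ⊕ Unit → ℤ × ℤ := lsE S.M S.x1 S.y0 S.c0 em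

lemma XS_l2z (S : Slit D) (em : ℤ × ℤ) : XS (l2z S em) = XS (lsZ S.M S.x1 S.y0 S.c0) ∪ {em} := by
  unfold XS l2z lsE
  rw [image_elim]
  have h3 : univ.image (fun _ : Unit => em) = {em} := by
    ext x; simp [eq_comm]
  rw [h3]

/-- the labels which stay random -/
noncomputable def EFz (S : Slit D) (B : Finset (ℤ × ℤ)) (em : ℤ × ℤ) : Finset (ℤ × ℤ) :=
  ELz S B ∪ EUz S B ∪ (RS S.N S.x1 S.y0 ∪ XS (l2z S em))

/-- **The frozen environment of a row with a string.** -/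
noncomputable def XFz (X : Env) (S : Slit D) (B : Finset (ℤ × ℤ)) (em : ℤ × ℤ) (t : Finset (ℤ × ℤ)) :
    Env := X.freeze (EFz S B em) t

/-- its open labels -/
noncomputable def WFz (X : Env) (W : Finset (ℤ × ℤ)) (S : Slit D) (B : Finset (ℤ × ℤ)) (em : ℤ × ℤ)
    (t : Finset (ℤ × ℤ)) : Finset (ℤ × ℤ) := fW X W (EFz S B em) t

lemma mem_RZs : lbt x y ∈ RZ S.N S.M S.x1 S.y0 S.c0 ↔
    (S.x1 ≤ x ∧ x < S.x2 ∧ y = S.y0) ∨ (x = S.xs ∧ S.y0 < y ∧ y < D.w + S.e) := by
  have h1 := S.N_eq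
  have h2 := S.M_eq
  rw [mem_RZ, S.xs_eq]
  constructor <;> rintro (h | h) <;> [left; right; left; right] <;> omega

namespace SlitEnv

variable (R : SlitEnv S X W B em)

include R

lemma RZ_sub : RZ S.N S.M S.x1 S.y0 S.c0 ⊆ X.E := by
  intro e he
  have ho : (e.1 + e.2) % 2 = 1 := by
    unfold RZ XS lsZ at he
    rcases mem_union.1 he with h | h
    · obtain ⟨c, rfl⟩ := mem_RS.1 h
      exact lbt_odd _ _
    · obtain ⟨c, -, rfl⟩ := mem_image.1 h
      exact lbt_odd _ _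
  obtain ⟨x, y, rfl⟩ := exists_lbt ho
  have s1 := S.s1
  have s2 := S.s2
  rcases mem_RZs.1 he with h | h
  · rw [h.2.2]; exact R.row x h.1 h.2.1
  · have e1 := S.e1
    rcases lt_or_ge y D.w with h4 | h4
    · exact R.upp x y (by omega) (by omega) h.2.1 h4
    · rw [h.1, show y = D.w by omega]
      exact R.ex (by omega)

lemma sub : EFz S B em ⊆ X.E := by
  intro e he
  unfold EFz at he
  rw [XS_l2z] at he
  rw [mem_union, mem_union, mem_union, mem_union, mem_singleton] at he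
  rcases he with (he | he) | he | he | he
  · obtain ⟨x, y, rfl⟩ := exists_lbt (odd_ELz he)
    have h2 := (mem_ELz.1 he).1
    exact R.low x y h2.1 h2.2.1 h2.2.2.1 h2.2.2.2
  · obtain ⟨x, y, rfl⟩ := exists_lbt (odd_EUz he)
    have h2 := (mem_EUz.1 he).1
    have h3 := S.up
    exact R.upp x y h2.1 h2.2.1 h2.2.2.2.1 (by omega)
  · exact R.RZ_sub (mem_union_left _ he)
  · exact R.RZ_sub (mem_union_right _ he)
  · rw [he]; exact R.emE

lemma XFz_E : (XFz X S B em t).E = EFz S B em := by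
  unfold XFz
  rw [Env.freeze_E]
  exact inter_eq_right.2 R.sub

omit R in
lemma disj_RZ {e : ℤ × ℤ} (he : e ∈ ELz S B ∪ EUz S B) : e ∉ RZ S.N S.M S.x1 S.y0 S.c0 := by
  intro h
  rcases mem_union.1 he with h1 | h1
  · obtain ⟨x, y, rfl⟩ := exists_lbt (odd_ELz h1)
    have h2 := (mem_ELz.1 h1).1
    rcases mem_RZs.1 h with h3 | h3 <;> omega
  · obtain ⟨x, y, rfl⟩ := exists_lbt (odd_EUz h1)
    have h2 := (mem_EUz.1 h1).1
    rcases mem_RZs.1 h with h3 | h3 <;> omega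

/-- **The layers of the frozen environment.** -/
theorem lay (t : Finset (ℤ × ℤ)) :
    LayE (XFz X S B em t) S.N S.x1 S.y0 (l2z S em) (ELz S B) (EUz S B) := by
  have hE := R.XFz_E (t := t)
  have hemR := R.emR
  have himg : univ.image (lbE S.N S.x1 S.y0 (l2z S em)) = RS S.N S.x1 S.y0 ∪ XS (l2z S em) :=
    image_lbE _ _ _ _
  refine ⟨⟨?_, ?_⟩, ?_, ?_, ?_⟩
  · -- injectivity
    have hrow : ∀ c c' : Fin S.N, rl S.x1 S.y0 c = rl S.x1 S.y0 c' → c = c' := fun c c' h => by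
      have := (lbt_inj h).1
      exact Fin.ext (by omega)
    have hstr : ∀ i i' : Fin S.M, lsZ S.M S.x1 S.y0 S.c0 i = lsZ S.M S.x1 S.y0 S.c0 i' → i = i' := by
      intro i i' h
      unfold lsZ at h
      have := (lbt_inj h).2
      exact Fin.ext (by omega)
    have hrs : ∀ (c : Fin S.N) (i : Fin S.M), rl S.x1 S.y0 c ≠ lsZ S.M S.x1 S.y0 S.c0 i := by
      intro c i h
      unfold rl lsZ at h
      have := (lbt_inj h).2
      have := i.2
      omega
    have hre : ∀ c : Fin S.N, rl S.x1 S.y0 c ≠ em := by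
      intro c h
      exact hemR (mem_union_left _ (mem_RS.2 ⟨c, h⟩))
    have hse : ∀ i : Fin S.M, lsZ S.M S.x1 S.y0 S.c0 i ≠ em := by
      intro i h
      exact hemR (mem_union_right _ (mem_image.2 ⟨i, mem_univ _, h⟩))
    intro i j hij
    rcases i with i | i | i <;> rcases j with j | j | j
    · exact congrArg Sum.inl (hrow _ _ hij)
    · exact absurd hij (hrs _ _)
    · exact absurd hij (hre _)
    · exact absurd hij.symm (hrs _ _)
    · exact congrArg (fun z => Sum.inr (Sum.inl z)) (hstr _ _ hij)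
    · exact absurd hij (hse _)
    · exact absurd hij.symm (hre _)
    · exact absurd hij.symm (hse _)
    · rfl
  · intro i
    rw [hE]
    unfold EFz
    rw [← himg]
    exact mem_union_right _ (mem_image_of_mem _ (mem_univ _))
  · rw [hE]
    unfold EFz
    rw [union_sdiff_right, Finset.sdiff_eq_self_iff_disjoint, disjoint_left]
    intro e he he'
    rw [XS_l2z, ← union_assoc, mem_union, mem_singleton] at he'
    rcases he' with h | h
    · exact disj_RZ he h
    · rw [h] at he; exact R.emB he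
  · intro e he
    obtain ⟨x, y, rfl⟩ := exists_lbt (odd_ELz he)
    have := (mem_ELz.1 he).1
    rw [lbt_diff]
    omega
  · intro e he
    obtain ⟨x, y, rfl⟩ := exists_lbt (odd_EUz he)
    have := (mem_EUz.1 he).1
    rw [lbt_diff]
    omega

lemma po_F (t : Finset (ℤ × ℤ)) : PO (XFz X S B em t) (WFz X W S B em t) := R.po.freeze _ _

/-- **The environments of the row with the string**, the tile at the target frozen. -/
theorem renv (t : Finset (ℤ × ℤ)) (κ : Bool) : REnv (fz1 (XFz X S B em t) em κ)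
    (WFz X W S B em t ∪ st1 em κ) S.M S.c0 S.x1 S.y0 (ELz S B) (EUz S B) :=
  renv_em (R.po_F t) (R.lay t) κ

/-- the labels around the window -/
theorem ext_F {c : Bool} (h : OutH D S.τ x y c) (hx : ¬ S.Xt x y) :
    lbt x y ∉ EFz S B em ∧ (lbt x y ∈ WFz X W S B em t ∪ st1 em true ↔ c = true) ∧
      (lbt x y ∈ WFz X W S B em t ∪ st1 em false ↔ c = true) := by
  obtain ⟨h1, h2⟩ := R.ext x y c h hx
  have h3 : lbt x y ≠ em := fun h3 => h1 (h3 ▸ R.emE)
  have h4 : lbt x y ∉ EFz S B em := fun h4 => h1 (R.sub h4)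
  have h5 : ∀ κ, lbt x y ∈ WFz X W S B em t ∪ st1 em κ ↔ c = true := by
    intro κ
    unfold WFz fW
    rw [mem_union, mem_union, mem_inter, mem_sdiff, mem_st1, ← h2]
    tauto
  exact ⟨h4, h5 true, h5 false⟩

end SlitEnv

/-- the fixed open labels of the glued configuration -/
noncomputable def WGz (S : Slit D) (X : Env) (W B : Finset (ℤ × ℤ)) (em : ℤ × ℤ)
    (t : Finset (ℤ × ℤ)) (κ : Bool) : Finset (ℤ × ℤ) :=
  WGb (D.p - 2) (D.q + 2) (D.lo - 2) D.w S.y0 (WFz X W S B em t ∪ st1 em κ) (EUz S B)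

/-- **The geometry of the row with the string for chapter B.** -/
theorem SlitEnv.rowZI (R : SlitEnv S X W B em) (hBL : SepZ B S.N S.x1 S.y0 S.k)
    (hBU : SepZ B S.N S.x1 (S.y0 + 1) S.k) {K0 : ℤ} (hK : 6 ≤ K0) (hNK : (S.N : ℤ) < K0 * (S.r + 1))
    {R0 : ℕ} (hR : (R0 : ℤ) ≤ S.r) (t : Finset (ℤ × ℤ)) :
    RowZI S.N S.x1 S.y0 S.k (ELz S B) (EUz S B) (WGz S X W B em t) K0 12 R0
      (SwZ S.N S.k S.x1 S.y0) := by
  have n1 := S.N_eq
  have k1 := S.k_eq
  have s1 := S.s1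
  have s2 := S.s2
  have r2 := S.r2
  -- the column of the string is added to the boxes
  set BS : Finset (ℤ × ℤ) := B ∪ XS (lsZ S.M S.x1 S.y0 S.c0) with hBS
  have m1 := S.M_eq
  have up := S.up
  have hsep : SepZ BS S.N S.x1 (S.y0 + 1) S.k := by
    intro x y h
    rcases mem_union.1 h with h | h
    · exact hBU x y h
    · right; right
      have := (mem_XSls.1 h).1
      rw [S.xs_eq] at this
      omega
  refine rowZI_of (BL := B) (BU := BS) (ya := S.y0 - S.r) (yb := S.y0 + S.r + 1) (by omega) (by omega)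
    hK ?_ ?_ ?_ ?_ hBL hsep (by omega) (by omega) ?_
  · rw [show S.y0 - (S.y0 - S.r) + 1 = S.r + 1 by ring]; exact hNK
  · rw [show S.y0 + S.r + 1 - S.y0 = S.r + 1 by ring]; exact hNK
  · intro x y h1 h2 h3 h4 h5
    exact mem_ELz.2 ⟨⟨h1, by omega, h3, h4⟩, h5⟩
  · intro x y h1 h2 h3 h4 h5
    rw [hBS, mem_union, not_or] at h5
    refine mem_EUz.2 ⟨⟨h1, by omega, ?_, h3, by omega⟩, h5.1⟩
    intro h6
    apply h5.2
    rw [mem_XSls, S.xs_eq]
    omega
  · intro κ
    exact disj_WGbE (R.renv t κ)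

/-! ### The environments `XH` and `XTH` -/

lemma Slit.inE_low (S : Slit D) (h1 : S.x1 ≤ x) (h2 : x < S.x2) (h3 : S.y0 - S.r ≤ y)
    (h4 : y < D.w) : D.InE S.τ x y := by
  have := S.p_le
  have := S.le_q
  have := S.fl x h1 h2
  exact Or.inl ⟨by omega, by omega, by omega, h4⟩

/-- the caps are not near the row -/
lemma Slit.no_cap (S : Slit D) {k : Ix} (hk : CPH D S.τ k) (h1 : S.x1 ≤ x) (h2 : x < S.x2)
    (h3 : S.y0 - S.r ≤ y) (h4 : y < D.w) : lbt x y ≠ lt (rt k) := by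
  intro h
  have hp := S.p_le
  have hq := S.le_q
  have hfl := S.fl x h1 h2
  have hr := S.r2
  have h5 : (x, y) = rt k := lt_inj h
  have h6 := Pool.Agent.H76.W.regH S.pos hk (t := (x, y)) (Or.inr h5)
  have h7 : D.InU x y := ⟨by omega, by omega, by omega, h4⟩
  obtain ⟨s, x', y'⟩ := k
  unfold Pool.Agent.H76.W.RgH at h6
  cases s
  · exact run_out S.pos (by tauto) h7
  · exact run_out S.pos (by tauto) h7
  · -- floor caps are on the floor
    have h8 : rt (.F, (x', y')) = (x', y') ∨ rt (.F, (x', y')) = (x' - 1, y') :=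
      Pool.Agent.H42.Sp.rt_F
    obtain ⟨a1, a2, a3, a4, a5, a6, -⟩ := hk
    rcases h8 with h8 | h8
    · rw [h8] at h5
      simp only [Prod.mk.injEq] at h5
      rw [← h5.1] at a4 a6
      have := S.τ_in h1 h2
      omega
    · rw [h8] at h5
      simp only [Prod.mk.injEq] at h5
      rw [← h5.1] at a3 a5
      have := S.τ_in h1 h2
      omega
  · exact h6

/-- **The tied environment of the slit.** -/
theorem slitEnv_XTH (S : Slit D) (hS : S.e = 0) (O : HOut D) (P : Finset Ix) (hP : ∀ k ∈ P, CPH D S.τ k)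
    (he : em ∈ ETH D S.τ P) (heR : em ∉ RZ S.N S.M S.x1 S.y0 S.c0) (heB : em ∉ ELz S B ∪ EUz S B) :
    SlitEnv S (XTH O S.pos P hP) (WTH D S.τ P O.Wo) B em := by
  have hin : ∀ x y, S.x1 ≤ x → x < S.x2 → S.y0 - S.r ≤ y → y < D.w → lbt x y ∈ ETH D S.τ P := by
    intro x y h1 h2 h3 h4
    unfold ETH
    rw [mem_sdiff]
    refine ⟨(mem_EH S.pos).2 (S.inE_low h1 h2 h3 h4), ?_⟩
    rw [mem_image]
    rintro ⟨k, hk, h5⟩
    exact S.no_cap (hP k hk) h1 h2 h3 h4 h5.symm
  have up := S.up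
  have r2 := S.r2
  refine ⟨PO.of_plane, ?_, ?_, ?_, fun h => by omega, ?_, ?_, he, heR, heB⟩
  · intro x y h1 h2 h3 h4
    exact hin x y h1 h2 h3 (by omega)
  · intro x y h1 h2 h3 h4
    exact hin x y h1 h2 (by omega) h4
  · intro x h1 h2
    exact hin x _ h1 h2 (by omega) (by omega)
  · intro x y c h _
    have h1 := h.not_mem S.pos
    refine ⟨fun h2 => h1 (Pool.Agent.H76.W.ETH_sub h2), ?_⟩
    unfold WTH
    rw [mem_union, ← h.mem O]
    refine ⟨fun h2 => ?_, Or.inl⟩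
    rcases h2 with h2 | h2
    · exact h2
    · exact absurd (Pool.Agent.H76.W.OTp_subH S.pos O hP h2) h1
  · intro x y h hz
    refine O.hroot ?_
    rw [← mem_GA (D := D)] at hz
    have h2 : plab O.c0 = lbt x y := h
    rw [h2]
    exact hz

end Pool.Agent.H30.W
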