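import Mathlib
import Pool.Agent.H30.W.Slit

set_option autoImplicit false
set_option linter.unusedSectionVars false
open Finset

/-! # The row with a string through a given point -/

namespace Pool.Agent.H30.W

open Pool.Agent.H54.W Pool.Agent.H54.W.HWin
open Pool.Agent.H25.W (hseg HComp)

/-- **The component of the row through `(xs, y0)`**: no floor level in `(y0 + 1 - r, y0 + 1]`, the columns
`xs - 1`, `xs`, `xs + 1` are open at the height `y0 + 1`. -/
theorem exists_slit {D : HWin} {xs y0 r : ℤ} {e : ℕ} (he : e ≤ 1) (hp : D.p < xs) (hq : xs + 1 < D.q)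
    (h2 : 2 ≤ r) (hup : y0 + r < D.w)
    (hlev : ∀ x, D.p ≤ x → x < D.q → D.a x + r ≤ y0 + 1 ∨ y0 + 1 < D.a x)
    (ha : D.a (xs - 1) ≤ y0 + 1) (hb : D.a xs ≤ y0 + 1) (hc : D.a (xs + 1) ≤ y0 + 1) {kl kr : Bool}
    (cl : ∀ x, D.p ≤ x → x < xs → D.cc x = kl) (cr : ∀ x, xs < x → x < D.q → D.cc x = kr)
    (par : e = 0 → (((xs + D.w) % 2 = 0 ↔ kl = true) ∧ ((xs + D.w) % 2 = 1 ↔ kr = true))) :
    ∃ S : Slit D, S.xs = xs ∧ S.y0 = y0 ∧ S.r = r ∧ S.e = e ∧ S.kl = kl ∧ S.kr = kr := by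
  obtain ⟨x1, x2, C, c1, c2⟩ := Pool.Agent.H25.W.exists_hcomp (D := D) (i := y0 + 1) (x := xs)
    hp.le (by omega) hb
  have s1 : x1 < xs := by
    rcases lt_or_eq_of_le c1 with h | h
    · exact h
    · have := C.bot (by omega)
      rw [h] at this
      omega
  have s2 : xs + 1 < x2 := by
    rcases lt_or_eq_of_le (show xs + 1 ≤ x2 by omega) with h | h
    · exact h
    · have := C.top (by omega)
      rw [← h] at this
      omega
  refine ⟨⟨x1, x2, xs, y0, r, e, he, C, s1, s2, h2, ?_, hup, kl, kr, cl, cr, par⟩, rfl, rfl, rfl, rfl,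
    rfl, rfl⟩
  intro x hx1 hx2
  have h3 := C.room x hx1 hx2
  have h4 := C.y0
  have h5 := C.yh
  rcases hlev x (by omega) (by omega) with h | h
  · exact h
  · omega

end Pool.Agent.H30.W
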