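import Mathlib
import Pool.Agent.H30.W.EmZ

set_option autoImplicit false
set_option linter.unusedSectionVars false
open Finset

/-! # One more tile with constant weights

`AG_frz` : the amplitude of a frozen environment. `AG_em1` : freezing the label `e` in the state `κ` = the
extra tile `e` with the weights `emA e κ`, `emB e κ` (`(1, 0)` or `(0, 1)`). `AG_frz1` : a frozen environment
in which `e` is frozen, too. -/

namespace Pool.Agent.H30.W

open Pool.Agent.H75.Perc Pool.Agent.H75.TwoArm Pool.Agent.Q1 Pool.Agent.H81.G1 Pool.Agent.H30.Mid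
open Pool.Agent.H69.M6b (lbt lbt_inj lbt_odd lbt_diff)
open Pool.Agent.Q1.M6b.Gl
open Pool.Agent.H40.W (lsZ)

/-- the weight `a` of the tile `e` frozen in the state `κ` -/
noncomputable def emA (e : ℤ × ℤ) (κ : Bool) : ℂ := if pE e = κ then 0 else 1

/-- the weight `b` of the tile `e` frozen in the state `κ` -/
noncomputable def emB (e : ℤ × ℤ) (κ : Bool) : ℂ := if pE e = κ then 1 else 0

section
variable {ι : Type*} [Fintype ι] [DecidableEq ι] {X : Env} {lb : ι → ℤ × ℤ} {e : ℤ × ℤ}

/-- **The amplitude of a frozen environment.** -/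
theorem AG_frz (h : Fam X lb) {E' t : Finset (ℤ × ℤ)} (hE' : univ.image lb ⊆ E') (ct : ℤ × ℤ)
    (a b : ι → ℂ) (ω : Finset (ℤ × ℤ)) :
    AG (X.freeze E' t) lb ct a b ω = AG X lb ct a b ((ω ∩ E') ∪ (t \ E')) := by
  have h' : Fam (X.freeze E' t) lb := ⟨h.inj, fun i => by
    rw [Env.freeze_E, mem_inter]
    exact ⟨h.mem i, hE' (mem_image_of_mem _ (mem_univ _))⟩⟩
  rw [AG_eq h', AG_eq h]
  refine sum_congr rfl fun s _ => ?_
  congr 1
  have h1 := osn_sub (h.tiles ω) s
  rw [h.frE] at h1
  rw [Env.freeze_incO (by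
    intro x hx
    rw [Env.freeze_E] at hx
    rcases mem_union.1 hx with h3 | h3
    · exact mem_inter.2 ⟨h.sub (h1 h3), hE' (h1 h3)⟩
    · exact (mem_sdiff.1 (mem_inter.1 h3).2).1)]
  congr 1
  rw [Env.freeze_E]
  ext x
  have k1 := @h1 x
  have k2 : x ∈ univ.image lb → x ∈ E' := fun hh => hE' hh
  simp only [mem_union, mem_inter, mem_sdiff]
  tauto

/-- **The extra tile `e` with the weights of the state `κ`.** -/
theorem AG_em1 (h : Fam X (Sum.elim lb (fun _ : Unit => e))) (κ : Bool) (ct : ℤ × ℤ) (a b : ι → ℂ)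
    (ω : Finset (ℤ × ℤ)) :
    AG (fz1 X e κ) lb ct a b ω =
      AG X (Sum.elim lb (fun _ : Unit => e)) ct (Sum.elim a fun _ => emA e κ)
        (Sum.elim b fun _ => emB e κ) ω := by
  have he : e ∉ univ.image lb := by
    intro h1
    exact disjoint_left.1 h.disj h1 (mem_image_of_mem _ (mem_univ ()))
  have heX : e ∈ X.E := h.mem (.inr ())
  have h1 := Ec_AG h (fun _ => (if κ then 1 else 0 : ℂ)) ct a b ω
  have e1 : (Sum.elim a (wA (fun _ : Unit => e) (gp fun _ : Unit => e) fun _ =>
      (if κ then 1 else 0 : ℂ))) = Sum.elim a fun _ => emA e κ := by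
    congr 1
    funext i
    unfold wA gp emA
    cases pE e <;> cases κ <;> simp
  have e2 : (Sum.elim b (wB (fun _ : Unit => e) (gp fun _ : Unit => e) fun _ =>
      (if κ then 1 else 0 : ℂ))) = Sum.elim b fun _ => emB e κ := by
    congr 1
    funext i
    unfold wB gp emB
    cases pE e <;> cases κ <;> simp
  rw [e1, e2] at h1
  rw [← h1, AG_fz1 h.inl he heX]
  have e3 : univ.image (fun _ : Unit => e) = {e} := by
    ext x; simp [eq_comm]
  rw [e3]
  unfold Ec
  rw [show ({e} : Finset (ℤ × ℤ)).powerset = {∅, {e}} from by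
    ext x; rw [mem_powerset, subset_singleton_iff, mem_insert, mem_singleton]]
  rw [sum_pair (by
    intro h2
    have := congrArg Finset.card h2
    simp at this)]
  unfold wtc
  simp only [sdiff_empty, Finset.sdiff_self, prod_singleton, prod_empty]
  cases κ
  · have e5 : st1 e false = ∅ := rfl
    rw [e5]
    simp
  · have e5 : st1 e true = {e} := rfl
    rw [e5]
    simp

/-- **A frozen environment in which one more label is frozen.** -/
theorem AG_frz1 (h : Fam X lb) {E' t : Finset (ℤ × ℤ)} (hE' : univ.image lb ⊆ E') (he : e ∉ E')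
    (heX : e ∈ X.E) (ct : ℤ × ℤ) (a b : ι → ℂ) (ω : Finset (ℤ × ℤ)) :
    AG (fz1 (X.freeze (insert e E') t) e (decide (e ∈ t))) lb ct a b ω =
      AG (X.freeze E' t) lb ct a b ω := by
  have he' : e ∉ univ.image lb := fun h1 => he (hE' h1)
  have hfr : Fam (X.freeze (insert e E') t) lb := ⟨h.inj, fun i => by
    rw [Env.freeze_E, mem_inter]
    exact ⟨h.mem i, mem_insert_of_mem (hE' (mem_image_of_mem _ (mem_univ _)))⟩⟩
  rw [AG_fz1 hfr he' (by
    rw [Env.freeze_E, mem_inter]
    exact ⟨heX, mem_insert_self _ _⟩), AG_frz h (hE'.trans (subset_insert _ _)), AG_frz h hE']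
  congr 1
  ext x
  have k1 : x = e → x ∉ E' := fun hh => hh ▸ he
  have k2 : x = e → (x ∈ t ↔ e ∈ t) := fun hh => by rw [hh]
  simp only [mem_union, mem_inter, mem_sdiff, mem_insert, mem_singleton, mem_st1, decide_eq_true_eq]
  tauto

end

end Pool.Agent.H30.W
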